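import Mathlib
import Pool.Agent.H630R2.LA.Upper
import Pool.Agent.TH588.WD.Cmd

set_option autoImplicit false

/-!
# Programs of a two-way head as deterministic 1-limited automata that never rewrite
-/

namespace Pool.Agent.R561.CM

open Relation Pool.Agent.TH588.WD.Cmd
open Pool.Agent.H630R2.LA (Sym LimAut Cfg Step init initTape fz Fr not_mem_of_stuck numTrans_le)
open Pool.Agent.TH588.WD (Cmd Impl)

/-- The machine never changes the content of a cell. -/
def NeverRewrites {A : Type} (M : LimAut A) : Prop :=
  ∀ p σ q b d, (q, b, d) ∈ M.δ p σ → σ.rewrite b = σ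

theorem lift_nr {A : Type} {M : LimAut A} {strict : Prop} (hM : NeverRewrites M) {n : ℕ}
    {x y : M.Q × ℕ} {τ : ℕ → Sym M.W}
    (h : ReflTransGen (Fr strict M τ (n + 1)) x y) (S : Set ℕ) :
    ∃ S' : Set ℕ, ReflTransGen (Step strict n) (⟨x.1, x.2, τ, S⟩ : Cfg M) ⟨y.1, y.2, τ, S'⟩ := by
  induction h with
  | refl => exact ⟨S, ReflTransGen.refl⟩
  | tail _ hstep ih =>
    rename_i y z _
    obtain ⟨S', hr⟩ := ih
    obtain ⟨h1, d, ⟨b, h2, _⟩, h4, h5⟩ := hstep
    refine ⟨insert y.2 S', hr.tail ?_⟩
    refine ⟨by simpa using h1, z.1, b, d, h2, fun _ _ => hM _ _ _ _ _ h2, rfl, fun _ => rfl, ?_,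
      rfl, h4, h5⟩
    intro _
    show τ = Function.update τ y.2 ((τ y.2).rewrite b)
    rw [hM _ _ _ _ _ h2, Function.update_eq_self]

variable {A : Type}

/-- The symbol that is written. -/
def keep (σ : Sym (Option A)) : Option A := match σ with
  | .sym w => w
  | _ => none

theorem rewrite_keep (σ : Sym (Option A)) : σ.rewrite (keep σ) = σ := by
  cases σ <;> rfl

/-- The states: those of the program, `some b`: the program has stopped with result `b`, and the
final state. -/
abbrev QP (c : Cmd (Sym (Option A)) Bool) : Type := c.St ⊕ Option Bool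

/-- The transition function. -/
def trP (c : Cmd (Sym (Option A)) Bool) (q : QP c) (σ : Sym (Option A)) :
    Option (QP c × Option A × Bool) :=
  match q with
  | Sum.inl s => some (Sum.elim Sum.inl (fun b => Sum.inr (some b)) (c.next s σ), keep σ, c.dir s σ)
  | Sum.inr (some true) => match σ with
    | .sym w => some (Sum.inr (some true), w, true)
    | .rm => some (Sum.inr none, none, true)
    | .lm => none
  | Sum.inr (some false) => none
  | Sum.inr none => none

/-- The machine of a program. -/
def prog [Finite A] (c : Cmd (Sym (Option A)) Bool) : LimAut A where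
  Q := QP c
  W := Option A
  finQ := inferInstance
  finW := inferInstance
  inp := some
  inp_inj := Option.some_injective A
  δ := fun q σ => {x | trP c q σ = some x}
  q0 := Sum.elim Sum.inl (fun b => Sum.inr (some b)) c.entry
  F := {Sum.inr none}

variable [Finite A] (c : Cmd (Sym (Option A)) Bool)

theorem prog_det : (prog c).Deterministic := by
  intro q σ x hx y hy
  have hx' : trP c q σ = some x := hx
  have hy' : trP c q σ = some y := hy
  rw [hx'] at hy'
  exact Option.some_injective _ hy'

theorem prog_nr : NeverRewrites (prog c) := by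
  rintro p σ q b d h
  have h' : trP c p σ = some (q, b, d) := h
  rcases p with s | (_ | (_ | _))
  · have h2 := Option.some_injective _ h'
    have h3 : keep σ = b := congrArg (fun x => x.2.1) h2
    rw [← h3]
    exact rewrite_keep σ
  · exact absurd h' (by simp [trP])
  · exact absurd h' (by simp [trP])
  · rcases σ with _ | _ | w
    · exact absurd h' (by simp [trP])
    · rfl
    · have h2 := Option.some_injective _ h'
      have h3 : w = b := congrArg (fun x => x.2.1) h2
      rw [← h3]
      rfl

theorem impl_prog (strict : Prop) :
    Impl strict (prog c) c Sum.inl (fun b => Sum.inr (some b)) := by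
  intro s σ
  exact ⟨keep σ, rfl, fun _ => rewrite_keep σ⟩

theorem tape_sym (w : List A) (i : ℕ) (hi : i < w.length) :
    initTape (prog c) w (i + 1) = .sym (some w[i]) := by
  simp only [initTape, List.getElem?_eq_getElem hi]
  rfl

theorem tape_rm (w : List A) : initTape (prog c) w (w.length + 1) = .rm := by
  simp only [initTape, List.getElem?_eq_none (le_refl w.length)]

/-- The tape as a function that does not depend on the program. -/
def tape (w : List A) : ℕ → Sym (Option A)
  | 0 => .lm
  | i + 1 => match w[i]? with
    | some a => .sym (some a)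
    | none => .rm

theorem tape_eq (w : List A) : initTape (prog c) w = tape w := by
  funext i
  rcases i with _ | i
  · rfl
  · simp only [initTape, tape]
    rcases w[i]? with _ | a <;> rfl

/-- The language of the machine of a program. -/
theorem mem_prog (strict : Prop) (w : List A) (φ : Prop)
    (h : Decides (tape w) (w.length + 1) c 1 1 φ) :
    w ∈ (prog c).language strict ↔ φ := by
  obtain ⟨b, hrun, hb⟩ := h
  rw [← tape_eq c w] at hrun
  have h1 := Impl.run (strict := strict) (M := prog c) hrun _ _ (impl_prog c strict)
  obtain ⟨S, h2⟩ := lift_nr (prog_nr c) h1 ∅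
  have h3 : ReflTransGen (Step strict w.length) (init (prog c) w)
      ⟨Sum.inr (some b), 1, initTape (prog c) w, S⟩ := h2
  rw [← hb]
  cases b
  · simp only [Bool.false_eq_true, iff_false]
    refine not_mem_of_stuck (prog_det c) h3 ?_ ?_
    · rintro c' ⟨_, q, b, d, hδ, _⟩
      have h4 : trP c (Sum.inr (some false)) (initTape (prog c) w 1) = some (q, b, d) := hδ
      simp [trP] at h4
    · show 1 ≠ w.length + 2
      omega
  · simp only [iff_true]
    have hgo : ∀ i, i ≤ w.length → ReflTransGen (Fr strict (prog c) (initTape (prog c) w)
        (w.length + 1)) ((Sum.inr (some true) : QP c), 1) ((Sum.inr (some true) : QP c), i + 1) := by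
      intro i hi
      induction i with
      | zero => exact ReflTransGen.refl
      | succ i ih =>
        refine (ih (by omega)).tail ⟨by show i + 1 ≤ w.length + 1; omega, true,
          ⟨some w[i], ?_, ?_⟩, fun _ => rfl, fun h => absurd h (by simp)⟩
        · show trP c (Sum.inr (some true)) (initTape (prog c) w (i + 1)) = some _
          rw [tape_sym c w i (by omega)]
          rfl
        · intro _
          show (initTape (prog c) w (i + 1)).rewrite (some w[i]) = _
          rw [tape_sym c w i (by omega)]
          rfl
    have hend : ReflTransGen (Fr strict (prog c) (initTape (prog c) w)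
        (w.length + 1)) ((Sum.inr (some true) : QP c), 1) ((Sum.inr none : QP c), w.length + 2) := by
      refine (hgo w.length le_rfl).tail ⟨le_rfl, true, ⟨none, ?_, ?_⟩, fun _ => rfl,
        fun h => absurd h (by simp)⟩
      · show trP c (Sum.inr (some true)) (initTape (prog c) w (w.length + 1)) = some _
        rw [tape_rm c w]
        rfl
      · intro _
        show (initTape (prog c) w (w.length + 1)).rewrite none = _
        rw [tape_rm c w]
        rfl
    obtain ⟨S', h4⟩ := lift_nr (prog_nr c) hend S
    exact ⟨_, h3.trans h4, rfl, rfl⟩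

theorem size_prog : (prog c).size ≤ 8 * (c.cnt + 3) * (Nat.card A + 3) := by
  have h1 := numTrans_le (prog c) (prog_det c)
  have h2 : Nat.card (prog c).Q = c.cnt + 3 := by
    show Nat.card (c.St ⊕ Option Bool) = _
    rw [Nat.card_sum, card_St, Finite.card_option, Nat.card_eq_fintype_card, Fintype.card_bool]
  have h3 : Nat.card (prog c).W = Nat.card A + 1 := by
    show Nat.card (Option A) = _
    exact Finite.card_option
  have h4 : (prog c).F.ncard = 1 := Set.ncard_singleton _
  rw [h2, h3] at h1
  unfold LimAut.size
  rw [h2, h3, h4]
  nlinarith [Nat.zero_le c.cnt, Nat.zero_le (Nat.card A), Nat.zero_le (c.cnt * Nat.card A)]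

end Pool.Agent.R561.CM
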