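import Mathlib
import Pool.Agent.R561.CM.Mach
import Pool.Agent.H542.UN.Walk

set_option autoImplicit false

/-!
# One-pass automata as programs, and the counting of marked letters
-/

namespace Pool.Agent.R561.CM

open Relation Pool.Agent.TH588.WD.Cmd
open Pool.Agent.H630R2.LA (Sym)
open Pool.Agent.TH588.WD (Cmd)
open Pool.Agent.H542.UN

section leaf

variable {A : Type}

/-- Go back to the cell `1` and report `b`. -/
def rew (b : Bool) : Cmd (Sym (Option A)) Bool :=
  aut Unit inferInstance ()
    (fun _ σ => match σ with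
      | .lm => Sum.inr b
      | _ => Sum.inl ())
    (fun _ σ => match σ with
      | .lm => true
      | _ => false)

theorem run_rew (w : List A) (b : Bool) (i : ℕ) (hi : i ≤ w.length + 1) :
    Run (tape w) (w.length + 1) (rew b) i b 1 := by
  induction i with
  | zero => exact Run.stop _ _ _ _ _ 0 1 b (by omega) rfl (fun _ => rfl) (fun h => absurd h (by simp [tape]))
  | succ i ih =>
    refine Run.loop _ _ _ () _ _ (i + 1) i 1 b hi ?_ ?_ ?_ (ih (by omega))
    · simp only [tape]
      rcases w[i]? with _ | a <;> rfl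
    · simp only [tape]
      rcases w[i]? with _ | a <;> simp
    · intro _; rfl

/-- One pass of a finite automaton over the input. -/
def scan {Z : Type} [Finite Z] (z0 : Z) (st : Z → A → Z) (R : Z → Bool) :
    Cmd (Sym (Option A)) Bool :=
  aut Z inferInstance z0
    (fun z σ => match σ with
      | .sym (some a) => Sum.inl (st z a)
      | .sym none => Sum.inl z
      | .lm => Sum.inl z
      | .rm => Sum.inr (R z))
    (fun _ σ => match σ with
      | .rm => false
      | _ => true)

theorem run_scan {Z : Type} [Finite Z] (st : Z → A → Z) (R : Z → Bool) (w : List A) (z : Z)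
    (v : List A) : ∀ u : List A, w = u ++ v →
    Run (tape w) (w.length + 1) (scan z st R) (u.length + 1) (R (v.foldl st z)) w.length := by
  induction v generalizing z with
  | nil =>
    intro u hu
    have h1 : w[u.length]? = none := by
      rw [hu]; simp
    have h2 : tape w (u.length + 1) = .rm := by simp only [tape, h1]
    have hl : w.length = u.length := by rw [hu]; simp
    refine Run.stop _ _ _ _ _ (u.length + 1) w.length _ (by omega) ?_ ?_ ?_
    · rw [h2]; rfl
    · rw [h2]; intro h; exact absurd h (by simp)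
    · rw [h2]; intro _; omega
  | cons a v ih =>
    intro u hu
    have h1 : w[u.length]? = some a := by
      rw [hu]; simp
    have h2 : tape w (u.length + 1) = .sym (some a) := by simp only [tape, h1]
    have hl : w.length = u.length + (v.length + 1) := by rw [hu]; simp
    have h3 := ih (st z a) (u ++ [a]) (by rw [hu]; simp)
    have h4 : (u ++ [a]).length = u.length + 1 := by simp
    rw [h4] at h3
    refine Run.loop _ _ _ (st z a) _ _ (u.length + 1) (u.length + 1 + 1) _ _ (by omega) ?_ ?_ ?_ h3
    · rw [h2]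
    · intro _; rfl
    · rw [h2]; intro h; exact absurd h (by simp)

/-- One pass of a finite automaton, then back to the cell `1`. -/
def dfaL {Z : Type} [Finite Z] (z0 : Z) (st : Z → A → Z) (R : Z → Bool) :
    Cmd (Sym (Option A)) Bool :=
  ite (scan z0 st R) (rew true) (rew false)

theorem decides_dfaL {Z : Type} [Finite Z] (z0 : Z) (st : Z → A → Z) (R : Z → Bool) (w : List A) :
    Decides (tape w) (w.length + 1) (dfaL z0 st R) 1 1 (R (w.foldl st z0) = true) := by
  refine ⟨R (w.foldl st z0), ?_, Iff.rfl⟩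
  have h1 := run_scan st R w z0 w [] rfl
  rcases h : R (w.foldl st z0) with _ | _
  · rw [h] at h1
    exact Run.iteF _ _ _ _ _ _ _ h1 (run_rew w false _ (by omega))
  · rw [h] at h1
    exact Run.iteT _ _ _ _ _ _ _ h1 (run_rew w true _ (by omega))

theorem cnt_dfaL {Z : Type} [Finite Z] (z0 : Z) (st : Z → A → Z) (R : Z → Bool) :
    (dfaL z0 st R).cnt = Nat.card Z + 2 := by
  show Nat.card Z + (Nat.card Unit + Nat.card Unit) = _
  simp

end leaf

/-- A finite automaton with marked transitions, whose states choose a digraph on `X`. -/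
structure MA (A X : Type) where
  S : Type
  fin : Finite S
  s0 : S
  st : S → A → S
  mark : S → A → Bool
  E : S → X → X → Prop

namespace MA

variable {A X : Type} (B : MA A X)

/-- The state and the number of marks. -/
def stp (z : B.S × ℕ) (a : A) : B.S × ℕ := (B.st z.1 a, if B.mark z.1 a then z.2 + 1 else z.2)

/-- The state and the number of marks after the word `w`. -/
def out (w : List A) : B.S × ℕ := w.foldl B.stp (B.s0, 0)

/-- The value of a counter with threshold `K` and modulus `b + 1`. -/
def vl (K b n : ℕ) : Fin (K + 1) × Fin (b + 1) :=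
  (⟨min n K, by omega⟩, ⟨n % (b + 1), Nat.mod_lt _ (by omega)⟩)

/-- Increase the counter. -/
def inc {K b : ℕ} (v : Fin (K + 1) × Fin (b + 1)) : Fin (K + 1) × Fin (b + 1) :=
  (⟨min (v.1.val + 1) K, by omega⟩, ⟨(v.2.val + 1) % (b + 1), Nat.mod_lt _ (by omega)⟩)

theorem inc_vl (K b n : ℕ) : inc (vl K b n) = vl K b (n + 1) := by
  unfold inc vl
  refine Prod.ext (Fin.ext ?_) (Fin.ext ?_)
  · show min (min n K + 1) K = min (n + 1) K
    omega
  · show (n % (b + 1) + 1) % (b + 1) = (n + 1) % (b + 1)
    simp

/-- The automaton with counter. -/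
def stZ (K b : ℕ) (z : B.S × (Fin (K + 1) × Fin (b + 1))) (a : A) :
    B.S × (Fin (K + 1) × Fin (b + 1)) :=
  (B.st z.1 a, if B.mark z.1 a then inc z.2 else z.2)

theorem foldl_stZ (K b : ℕ) (w : List A) (s : B.S) (n : ℕ) :
    w.foldl (B.stZ K b) (s, vl K b n) =
      ((w.foldl B.stp (s, n)).1, vl K b (w.foldl B.stp (s, n)).2) := by
  induction w generalizing s n with
  | nil => rfl
  | cons a w ih =>
    simp only [List.foldl_cons]
    have h : B.stZ K b (s, vl K b n) a = ((B.stp (s, n) a).1, vl K b (B.stp (s, n) a).2) := by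
      simp only [stZ, stp]
      cases B.mark s a
      · simp
      · simp [inc_vl]
    rw [h, ih]

open Classical in
/-- The final test. -/
noncomputable def tst (K b : ℕ) (x y : X) (z : B.S × (Fin (K + 1) × Fin (b + 1))) : Bool :=
  decide ((z.2.1.val < K ∧ Walk (B.E z.1) z.2.1.val x y) ∨
    (z.2.1.val = K ∧ ∀ m', K ≤ m' → m' % (b + 1) = z.2.2.val → Walk (B.E z.1) m' x y))

theorem tst_vl (K b : ℕ) (x y : X) (s : B.S) (n : ℕ) :
    B.tst K b x y (s, vl K b n) = true ↔ ((n < K ∧ Walk (B.E s) n x y) ∨
      (K ≤ n ∧ ∀ m', K ≤ m' → m' % (b + 1) = n % (b + 1) → Walk (B.E s) m' x y)) := by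
  classical
  refine decide_eq_true_iff.trans ?_
  show ((min n K < K ∧ Walk (B.E s) (min n K) x y) ∨ (min n K = K ∧
    ∀ m', K ≤ m' → m' % (b + 1) = n % (b + 1) → Walk (B.E s) m' x y)) ↔ _
  rcases Nat.lt_or_ge n K with h | h
  · rw [Nat.min_eq_left h.le]
    constructor
    · rintro (h1 | h1)
      · exact Or.inl h1
      · omega
    · rintro (h1 | h1)
      · exact Or.inl h1
      · omega
  · rw [Nat.min_eq_right h]
    constructor
    · rintro (h1 | h1)
      · omega
      · exact Or.inr ⟨h, h1.2⟩
    · rintro (h1 | h1)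
      · omega
      · exact Or.inr ⟨rfl, h1.2⟩

/-- The test for a walk from `x` to `y` whose length is the number of marks. -/
noncomputable def T (x y : X) : Cmd (Sym (Option A)) Bool :=
  haveI := B.fin
  orL (List.finRange (Nat.card X)) (fun i =>
    dfaL (B.s0, vl (2 * Nat.card X ^ 2) i.val 0) (B.stZ (2 * Nat.card X ^ 2) i.val)
      (B.tst (2 * Nat.card X ^ 2) i.val x y))

theorem decides_T [Finite X] (x y : X) (w : List A) :
    Decides (tape w) (w.length + 1) (B.T x y) 1 1 (Walk (B.E (B.out w).1) (B.out w).2 x y) := by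
  have := B.fin
  have hr : 0 < Nat.card X := by
    have : Nonempty X := ⟨x⟩
    exact Nat.card_pos
  refine (decides_orL _ _ _ (fun i => decides_dfaL _ _ _ w)).congr ?_
  constructor
  · rintro ⟨i, _, hi⟩
    rw [foldl_stZ, tst_vl] at hi
    rcases hi with h | h
    · exact h.2
    · exact h.2 _ h.1 rfl
  · intro h
    rcases Nat.lt_or_ge (B.out w).2 (2 * Nat.card X ^ 2) with h1 | h1
    · refine ⟨⟨0, hr⟩, List.mem_finRange _, ?_⟩
      rw [foldl_stZ, tst_vl]
      exact Or.inl ⟨h1, h⟩
    · obtain ⟨b, hb, hb', h2⟩ := walk_period x y _ h1 h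
      refine ⟨⟨b - 1, by omega⟩, List.mem_finRange _, ?_⟩
      rw [foldl_stZ, tst_vl]
      refine Or.inr ⟨h1, ?_⟩
      intro m' hm' hm
      have h3 : b - 1 + 1 = b := by omega
      simp only [h3] at hm
      exact h2 m' hm' hm

theorem cnt_T (x y : X) (s : ℕ) (hs : Nat.card B.S ≤ s) :
    (B.T x y).cnt ≤ Nat.card X * (s * ((2 * Nat.card X ^ 2 + 1) * Nat.card X) + 2) := by
  have := B.fin
  have h := cnt_orL (List.finRange (Nat.card X)) (fun i =>
    dfaL (B.s0, vl (2 * Nat.card X ^ 2) i.val 0) (B.stZ (2 * Nat.card X ^ 2) i.val)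
      (B.tst (2 * Nat.card X ^ 2) i.val x y))
    (s * ((2 * Nat.card X ^ 2 + 1) * Nat.card X) + 2) (by
      intro i
      rw [cnt_dfaL, Nat.card_prod, Nat.card_prod, Nat.card_eq_fintype_card (α := Fin _),
        Nat.card_eq_fintype_card (α := Fin _), Fintype.card_fin, Fintype.card_fin]
      have h1 : i.val + 1 ≤ Nat.card X := i.isLt
      exact Nat.add_le_add_right (Nat.mul_le_mul hs (Nat.mul_le_mul_left _ h1)) 2)
  rw [List.length_finRange] at h
  exact h

end MA

section chain

variable {A X : Type}

/-- The chain of walks. -/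
def reach (w : List A) : List (MA A X) → X → X → Prop
  | [], x, y => x = y
  | B :: l, x, y => ∃ z, Walk (B.E (B.out w).1) (B.out w).2 x z ∧ reach w l z y

theorem reach_append (w : List A) (l l' : List (MA A X)) (x y : X) :
    reach w (l ++ l') x y ↔ ∃ z, reach w l x z ∧ reach w l' z y := by
  induction l generalizing x with
  | nil => simp [reach]
  | cons B l ih =>
    simp only [List.cons_append, reach]
    constructor
    · rintro ⟨z, h1, h2⟩
      obtain ⟨z', h3, h4⟩ := (ih z).1 h2
      exact ⟨z', ⟨z, h1, h3⟩, h4⟩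
    · rintro ⟨z', ⟨z, h1, h3⟩, h4⟩
      exact ⟨z, h1, (ih z).2 ⟨z', h3, h4⟩⟩

open Classical in
/-- The program that decides the existence of a chain of at most `2 ^ d` walks, by divide and
conquer: it tries all vertices for the middle of the chain. -/
noncomputable def dc (L : List X) : ℕ → List (MA A X) → X → X → Cmd (Sym (Option A)) Bool
  | 0, [], x, y => ret (decide (x = y))
  | 0, B :: _, x, y => B.T x y
  | d + 1, l, x, y => orL L (fun z =>
      ite (dc L d (l.take (2 ^ d)) x z) (dc L d (l.drop (2 ^ d)) z y) (ret false))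

theorem decides_dc [Finite X] (L : List X) (hL : ∀ x, x ∈ L) (w : List A) (d : ℕ)
    (l : List (MA A X)) (hl : l.length ≤ 2 ^ d) (x y : X) :
    Decides (tape w) (w.length + 1) (dc L d l x y) 1 1 (reach w l x y) := by
  induction d generalizing l x y with
  | zero =>
    rcases l with _ | ⟨B, l⟩
    · refine (decides_ret _ _ _ _).congr ?_
      simp [reach]
    · have hl' : l = [] := by
        have h1 : l.length + 1 ≤ 1 := by simpa using hl
        exact List.length_eq_zero_iff.1 (by omega)
      subst hl'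
      refine (B.decides_T x y w).congr ?_
      simp [reach]
  | succ d ih =>
    have h1 : (l.take (2 ^ d)).length ≤ 2 ^ d := by simp
    have h2 : (l.drop (2 ^ d)).length ≤ 2 ^ d := by
      rw [List.length_drop]
      rw [pow_succ] at hl
      omega
    refine (decides_orL _ _ _ (fun z => decides_ite (ih _ h1 x z) (fun _ => ih _ h2 z y)
      (fun _ => decides_ret _ _ _ _))).congr ?_
    conv_rhs => rw [← List.take_append_drop (2 ^ d) l]
    rw [reach_append]
    constructor
    · rintro ⟨z, _, h | h⟩
      · exact ⟨z, h.1, h.2⟩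
      · exact absurd h.2 (by simp)
    · rintro ⟨z, h3, h4⟩
      exact ⟨z, hL z, Or.inl ⟨h3, h4⟩⟩

theorem cnt_dc [Finite X] (L : List X) (hL : L.length = Nat.card X) (s d : ℕ)
    (l : List (MA A X)) (hs : ∀ B ∈ l, Nat.card B.S ≤ s) (x y : X) :
    (dc L d l x y).cnt ≤ (2 * Nat.card X) ^ d *
      (Nat.card X * (s * ((2 * Nat.card X ^ 2 + 1) * Nat.card X) + 2)) := by
  induction d generalizing l x y with
  | zero =>
    rw [pow_zero, Nat.one_mul]
    rcases l with _ | ⟨B, l⟩
    · exact Nat.zero_le _
    · exact B.cnt_T x y s (hs B List.mem_cons_self)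
  | succ d ih =>
    set t := Nat.card X * (s * ((2 * Nat.card X ^ 2 + 1) * Nat.card X) + 2) with ht
    have h1 := cnt_orL L (fun z => ite (dc L d (l.take (2 ^ d)) x z)
      (dc L d (l.drop (2 ^ d)) z y) (ret false)) (2 * ((2 * Nat.card X) ^ d * t)) (by
        intro z
        have h2 := ih (l.take (2 ^ d)) (fun B hB => hs B (List.mem_of_mem_take hB)) x z
        have h3 := ih (l.drop (2 ^ d)) (fun B hB => hs B (List.mem_of_mem_drop hB)) z y
        simp only [cnt]
        omega)
    rw [hL] at h1
    refine h1.trans (le_of_eq ?_)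
    ring

open Classical in
/-- The whole program. -/
noncomputable def top (L : List X) (F : X → Prop) (d : ℕ) (l : List (MA A X)) (x : X) :
    Cmd (Sym (Option A)) Bool :=
  orL L (fun y => ite (dc L d l x y) (ret (decide (F y))) (ret false))

theorem decides_top [Finite X] (L : List X) (hL : ∀ x, x ∈ L) (F : X → Prop) (w : List A) (d : ℕ)
    (l : List (MA A X)) (hl : l.length ≤ 2 ^ d) (x : X) :
    Decides (tape w) (w.length + 1) (top L F d l x) 1 1 (∃ y, reach w l x y ∧ F y) := by
  refine (decides_orL _ _ _ (fun y => decides_ite (decides_dc L hL w d l hl x y)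
    (fun _ => decides_ret _ _ _ _) (fun _ => decides_ret _ _ _ _))).congr ?_
  constructor
  · rintro ⟨y, _, h | h⟩
    · exact ⟨y, h.1, by simpa using h.2⟩
    · exact absurd h.2 (by simp)
  · rintro ⟨y, h1, h2⟩
    exact ⟨y, hL y, Or.inl ⟨h1, by simpa using h2⟩⟩

theorem cnt_top [Finite X] (L : List X) (hL : L.length = Nat.card X) (F : X → Prop) (s d : ℕ)
    (l : List (MA A X)) (hs : ∀ B ∈ l, Nat.card B.S ≤ s) (x : X) :
    (top L F d l x).cnt ≤ (3 * s + 2) * 2 ^ d * Nat.card X ^ (d + 5) := by
  classical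
  set r := Nat.card X with hr'
  have hr : 1 ≤ r := by
    have : Nonempty X := ⟨x⟩
    exact Nat.card_pos
  set t := r * (s * ((2 * r ^ 2 + 1) * r) + 2) with ht
  have h1 := cnt_orL L (fun y => ite (dc L d l x y) (ret (decide (F y))) (ret false))
    ((2 * r) ^ d * t) (by
      intro y
      have h2 := cnt_dc L hL s d l hs x y
      simp only [cnt]
      omega)
  rw [hL] at h1
  have h3 : t ≤ (3 * s + 2) * r ^ 4 := by
    have e1 : (2 * r ^ 2 + 1) * r ≤ 3 * r ^ 3 := by
      have : r ≤ r ^ 3 := by
        calc r = r ^ 1 := (pow_one r).symm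
          _ ≤ r ^ 3 := Nat.pow_le_pow_right hr (by norm_num)
      calc (2 * r ^ 2 + 1) * r = 2 * r ^ 3 + r := by ring
        _ ≤ 3 * r ^ 3 := by omega
    have e2 : 2 ≤ 2 * r ^ 3 := by
      have : 1 ≤ r ^ 3 := Nat.one_le_pow _ _ hr
      omega
    calc r * (s * ((2 * r ^ 2 + 1) * r) + 2) ≤ r * (s * (3 * r ^ 3) + 2 * r ^ 3) :=
          Nat.mul_le_mul_left _ (Nat.add_le_add (Nat.mul_le_mul_left _ e1) e2)
      _ = (3 * s + 2) * r ^ 4 := by ring
  calc (top L F d l x).cnt ≤ r * ((2 * r) ^ d * t) := h1
    _ ≤ r * ((2 * r) ^ d * ((3 * s + 2) * r ^ 4)) :=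
        Nat.mul_le_mul_left _ (Nat.mul_le_mul_left _ h3)
    _ = (3 * s + 2) * 2 ^ d * r ^ (d + 5) := by
        rw [mul_pow]; ring

end chain

end Pool.Agent.R561.CM
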