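import Mathlib
import Pool.Agent.R561.CM.Leaf
import Pool.Agent.H630R2.LA.Nerode

set_option autoImplicit false

/-!
# Run-length encodings and counting of letters by automata
-/

namespace Pool.Agent.R561.CM

open Relation Pool.Agent.TH588.WD.Cmd
open Pool.Agent.H630R2.LA
open Pool.Agent.TH588.WD (Cmd)
open Pool.Agent.H542.UN

variable {A : Type}

/-- The states of the table automaton. -/
abbrev Tb (M : LimAut A) : Type := Set (M.Q × M.Q) × M.Q

theorem runs_replicate (strict : Prop) (M : LimAut A) (a : A) (n : ℕ) (x y : Tb M) :
    runs strict M (List.replicate n a) x y ↔ Walk (nstep strict M (.sym (M.inp a))) n x y := by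
  induction n generalizing x with
  | zero => simp [runs, Walk]
  | succ n ih => simp only [List.replicate_succ, runs, Walk, ih]

theorem reach_map {ι : Type} (strict : Prop) (M : LimAut A) (w : List A) (Bf : ι → MA A (Tb M))
    (f : ι → List A)
    (h : ∀ i x y, Walk ((Bf i).E ((Bf i).out w).1) ((Bf i).out w).2 x y ↔
      runs strict M (f i) x y) (I : List ι) (x y : Tb M) :
    reach w (I.map Bf) x y ↔ runs strict M (I.flatMap f) x y := by
  induction I generalizing x with
  | nil => simp [reach, runs]
  | cons i I ih => simp only [List.map_cons, reach, List.flatMap_cons, runs_append, h, ih]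

section count

variable [DecidableEq A]

/-- The automaton that counts the letter `a`. -/
abbrev cntMA (strict : Prop) (M : LimAut A) (a : A) : MA A (Tb M) where
  S := Unit
  fin := inferInstance
  s0 := ()
  st := fun _ _ => ()
  mark := fun _ c => decide (c = a)
  E := fun _ => nstep strict M (.sym (M.inp a))

theorem cntMA_foldl (strict : Prop) (M : LimAut A) (a : A) (w : List A) (n : ℕ) :
    w.foldl (cntMA strict M a).stp ((), n) = ((), n + w.count a) := by
  induction w generalizing n with
  | nil => rfl
  | cons c w ih =>
    rw [List.foldl_cons]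
    by_cases h : c = a
    · have h1 : (cntMA strict M a).stp ((), n) c = ((), n + 1) := by
        simp [MA.stp, cntMA, h]
      rw [h1, ih, h, List.count_cons_self]
      congr 1
      omega
    · have h1 : (cntMA strict M a).stp ((), n) c = ((), n) := by
        simp [MA.stp, cntMA, h]
      rw [h1, ih, List.count_cons_of_ne h]

theorem cntMA_out (strict : Prop) (M : LimAut A) (a : A) (w : List A) :
    (cntMA strict M a).out w = ((), w.count a) := by
  have h := cntMA_foldl strict M a w 0
  rw [Nat.zero_add] at h
  exact h

/-- The rearrangement of `w` in the order of the list `l`. -/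
def arr (l w : List A) : List A := l.flatMap (fun a => List.replicate (w.count a) a)

theorem reach_count (strict : Prop) (M : LimAut A) (w l : List A) (x y : Tb M) :
    reach w (l.map (cntMA strict M)) x y ↔ runs strict M (arr l w) x y := by
  refine reach_map strict M w _ _ ?_ l x y
  intro a x y
  rw [runs_replicate, cntMA_out]

theorem count_arr (w : List A) (c : A) (l : List A) (hn : l.Nodup) :
    (arr l w).count c = if c ∈ l then w.count c else 0 := by
  induction l with
  | nil => simp [arr]
  | cons a l ih =>
    rw [List.nodup_cons] at hn
    have h1 := ih hn.2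
    unfold arr at h1 ⊢
    rw [List.flatMap_cons, List.count_append, h1, List.count_replicate]
    by_cases h : a = c
    · subst h
      simp [hn.1]
    · have h2 : ¬ c = a := fun h' => h h'.symm
      simp [h, h2]

theorem arr_perm (w l : List A) (hn : l.Nodup) (hl : ∀ a, a ∈ l) : (arr l w).Perm w := by
  rw [List.perm_iff_count]
  intro c
  rw [count_arr w c l hn, if_pos (hl c)]

end count

section blocks

variable [DecidableEq A]

/-- One step of the run-length encoding (last block first). -/
def rstep : List (A × ℕ) → A → List (A × ℕ)
  | [], a => [(a, 1)]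
  | p :: t, a => if a = p.1 then (p.1, p.2 + 1) :: t else (a, 1) :: p :: t

/-- The run-length encoding (last block first). -/
def rle (w : List A) : List (A × ℕ) := w.foldl rstep []

omit [DecidableEq A] in
/-- The word that is encoded. -/
def dec (u : List (A × ℕ)) : List A := u.flatMap (fun p => List.replicate p.2 p.1)

theorem dec_rstep (l : List (A × ℕ)) (a : A) :
    dec (rstep l a).reverse = dec l.reverse ++ [a] := by
  rcases l with _ | ⟨p, t⟩
  · simp [rstep, dec]
  · by_cases h : a = p.1
    · simp [rstep, dec, h, List.replicate_succ']
    · simp [rstep, dec, h]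

theorem dec_foldl (w : List A) (l : List (A × ℕ)) :
    dec (w.foldl rstep l).reverse = dec l.reverse ++ w := by
  induction w generalizing l with
  | nil => simp
  | cons a w ih => rw [List.foldl_cons, ih, dec_rstep]; simp

theorem dec_rle (w : List A) : dec (rle w).reverse = w := by
  have h := dec_foldl w []
  have h2 : dec ([] : List (A × ℕ)).reverse ++ w = w := rfl
  rw [h2] at h
  exact h

theorem length_same (n : ℕ) (a : A) (p : A × ℕ) (t : List (A × ℕ)) (hp : p.1 = a) :
    ((List.replicate n a).foldl rstep (p :: t)).length = t.length + 1 := by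
  induction n generalizing p with
  | zero => rfl
  | succ n ih =>
    rw [List.replicate_succ, List.foldl_cons]
    have h : rstep (p :: t) a = (p.1, p.2 + 1) :: t := by simp [rstep, hp]
    rw [h]
    exact ih _ hp

theorem length_power (n : ℕ) (a : A) (l : List (A × ℕ)) :
    ((List.replicate n a).foldl rstep l).length ≤ l.length + 1 := by
  rcases n with _ | n
  · simp
  · rw [List.replicate_succ, List.foldl_cons]
    rcases l with _ | ⟨p, t⟩
    · have h := length_same n a (a, 1) [] rfl
      simp only [rstep]
      rw [h]
    · by_cases h : a = p.1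
      · have h1 : rstep (p :: t) a = (p.1, p.2 + 1) :: t := by simp [rstep, h]
        have h2 := length_same n a (p.1, p.2 + 1) t h.symm
        rw [h1, h2]
        simp
      · have h1 : rstep (p :: t) a = (a, 1) :: p :: t := by simp [rstep, h]
        have h2 := length_same n a (a, 1) (p :: t) rfl
        rw [h1, h2]

theorem length_dec (u : List (A × ℕ)) (l : List (A × ℕ)) :
    ((dec u).foldl rstep l).length ≤ l.length + u.length := by
  induction u generalizing l with
  | nil => simp [dec]
  | cons p u ih =>
    have h : dec (p :: u) = List.replicate p.2 p.1 ++ dec u := rfl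
    rw [h, List.foldl_append]
    have h1 := ih ((List.replicate p.2 p.1).foldl rstep l)
    have h2 := length_power p.2 p.1 l
    simp only [List.length_cons]
    omega

theorem prod_iff (w : List A) (k : ℕ) :
    (∃ u : List (A × ℕ), u.length ≤ k ∧ w = u.flatMap (fun p => List.replicate p.2 p.1)) ↔
      (rle w).length ≤ k := by
  constructor
  · rintro ⟨u, h1, h2⟩
    have h3 := length_dec u []
    have h4 : w = dec u := h2
    rw [← h4] at h3
    have h5 : (rle w).length ≤ 0 + u.length := h3
    omega
  · intro h
    exact ⟨(rle w).reverse, by simpa using h, (dec_rle w).symm⟩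

/-- The transitions of the automaton that finds the block `i`. -/
def blkSt (i : ℕ) : Option (Fin (i + 2) × A) → A → Option (Fin (i + 2) × A)
  | none, a => some (⟨0, by omega⟩, a)
  | some (j, c), a =>
    if j.val = i + 1 ∨ a = c then some (j, c)
    else if h : j.val < i then some (⟨j.val + 1, by omega⟩, a)
    else some (⟨i + 1, by omega⟩, c)

/-- The marks: the letters of the block `i`. -/
def blkMark (i : ℕ) : Option (Fin (i + 2) × A) → A → Bool
  | none, _ => decide (i = 0)
  | some (j, c), a => if a = c then decide (j.val = i) else decide (j.val + 1 = i)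

/-- The automaton of the block `i`. -/
abbrev blkMA [Finite A] (strict : Prop) (M : LimAut A) (i : ℕ) : MA A (Tb M) where
  S := Option (Fin (i + 2) × A)
  fin := inferInstance
  s0 := none
  st := blkSt i
  mark := blkMark i
  E := fun s => match s with
    | none => fun _ _ => False
    | some (_, c) => nstep strict M (.sym (M.inp c))

/-- The invariant. -/
def Inv (i : ℕ) (l : List (A × ℕ)) (z : Option (Fin (i + 2) × A) × ℕ) : Prop :=
  match l with
  | [] => z = (none, 0)
  | p :: t => ∃ j c n, z = (some (j, c), n) ∧
      ((t.length < i ∧ j.val = t.length ∧ c = p.1 ∧ n = 0) ∨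
        (t.length = i ∧ j.val = i ∧ c = p.1 ∧ n = p.2) ∨
        (i < t.length ∧ j.val = i + 1 ∧ (p :: t).reverse[i]? = some (c, n)))

theorem inv_step [Finite A] (strict : Prop) (M : LimAut A) (i : ℕ) (l : List (A × ℕ))
    (z : Option (Fin (i + 2) × A) × ℕ) (a : A) (h : Inv i l z) :
    Inv i (rstep l a) ((blkMA strict M i).stp z a) := by
  rcases l with _ | ⟨p, t⟩
  · have hz : z = (none, 0) := h
    subst hz
    refine ⟨⟨0, by omega⟩, a, if i = 0 then 1 else 0, ?_, ?_⟩
    · show (some ((⟨0, by omega⟩ : Fin (i + 2)), a), if decide (i = 0) then 0 + 1 else 0) = _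
      by_cases hi : i = 0 <;> simp [hi]
    · by_cases hi : i = 0
      · right; left
        refine ⟨hi.symm, hi.symm, rfl, by simp [hi]⟩
      · left
        refine ⟨?_, rfl, rfl, by simp [hi]⟩
        show 0 < i
        omega
  · obtain ⟨j, c, n, hz, h⟩ := h
    subst hz
    show Inv i (rstep (p :: t) a)
        (blkSt i (some (j, c)) a, if blkMark i (some (j, c)) a then n + 1 else n)
    by_cases ha : a = p.1
    · have hr : rstep (p :: t) a = (p.1, p.2 + 1) :: t := by simp [rstep, ha]
      rw [hr]
      rcases h with ⟨h1, h2, h3, h4⟩ | ⟨h1, h2, h3, h4⟩ | ⟨h1, h2, h3⟩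
      · refine ⟨j, c, n, ?_, Or.inl ⟨h1, h2, h3, h4⟩⟩
        have h5 : a = c := ha.trans h3.symm
        have h6 : ¬ j.val = i := by omega
        simp [blkSt, blkMark, h5, h6]
      · refine ⟨j, c, n + 1, ?_, Or.inr (Or.inl ⟨h1, h2, h3, by rw [h4]⟩)⟩
        have h5 : a = c := ha.trans h3.symm
        simp [blkSt, blkMark, h5, h2]
      · refine ⟨j, c, n, ?_, Or.inr (Or.inr ⟨h1, h2, ?_⟩)⟩
        · by_cases h5 : a = c
          · simp [blkSt, blkMark, h5, h2]
          · have h8 : ¬ i + 1 + 1 = i := by omega
            simp [blkSt, blkMark, h5, h2, h8]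
        · rw [← h3, List.reverse_cons, List.reverse_cons,
            List.getElem?_append_left (by simpa using h1),
            List.getElem?_append_left (by simpa using h1)]
    · have hr : rstep (p :: t) a = (a, 1) :: p :: t := by simp [rstep, ha]
      rw [hr]
      rcases h with ⟨h1, h2, h3, h4⟩ | ⟨h1, h2, h3, h4⟩ | ⟨h1, h2, h3⟩
      · have h5 : ¬ a = c := by rw [h3]; exact ha
        have h6 : ¬ j.val = i + 1 := by omega
        have h7 : j.val < i := by omega
        have e1 : blkSt i (some (j, c)) a = some (⟨j.val + 1, by omega⟩, a) := by
          simp [blkSt, h5, h6, h7]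
        have e2 : blkMark i (some (j, c)) a = decide (j.val + 1 = i) := by
          simp [blkMark, h5]
        rw [e1, e2]
        by_cases h8 : t.length + 1 = i
        · refine ⟨⟨j.val + 1, by omega⟩, a, 1, ?_, Or.inr (Or.inl ⟨?_, ?_, rfl, rfl⟩)⟩
          · have h9 : j.val + 1 = i := by omega
            simp [h9, h4]
          · simpa using h8
          · show j.val + 1 = i
            omega
        · refine ⟨⟨j.val + 1, by omega⟩, a, 0, ?_, Or.inl ⟨?_, ?_, rfl, rfl⟩⟩
          · have h9 : ¬ j.val + 1 = i := by omega
            simp [h9, h4]
          · simp only [List.length_cons]; omega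
          · simp only [List.length_cons]; omega
      · have h5 : ¬ a = c := by rw [h3]; exact ha
        have h6 : ¬ j.val = i + 1 := by omega
        have h7 : ¬ j.val < i := by omega
        have e1 : blkSt i (some (j, c)) a = some (⟨i + 1, by omega⟩, c) := by
          simp [blkSt, h5, h6, h7]
        have e2 : blkMark i (some (j, c)) a = false := by
          have h9 : ¬ j.val + 1 = i := by omega
          simp [blkMark, h5, h9]
        rw [e1, e2]
        refine ⟨⟨i + 1, by omega⟩, c, n, by simp, Or.inr (Or.inr ⟨?_, rfl, ?_⟩)⟩
        · simp only [List.length_cons]; omega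
        · rw [List.reverse_cons, List.reverse_cons,
            List.getElem?_append_left (by simp; omega),
            List.getElem?_append_right (by simp; omega)]
          simp [h1, h3, h4]
      · have e1 : blkSt i (some (j, c)) a = some (j, c) := by
          simp [blkSt, h2]
        have e2 : blkMark i (some (j, c)) a = false := by
          have h8 : ¬ j.val = i := by omega
          have h9 : ¬ j.val + 1 = i := by omega
          by_cases h5 : a = c
          · simp [blkMark, h5, h8]
          · simp [blkMark, h5, h9]
        rw [e1, e2]
        refine ⟨j, c, n, by simp, Or.inr (Or.inr ⟨?_, h2, ?_⟩)⟩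
        · simp only [List.length_cons]; omega
        · rw [← h3]
          conv_lhs => rw [List.reverse_cons]
          rw [List.getElem?_append_left (by simp; omega)]

theorem inv_foldl [Finite A] (strict : Prop) (M : LimAut A) (i : ℕ) (w : List A)
    (l : List (A × ℕ)) (z : Option (Fin (i + 2) × A) × ℕ) (h : Inv i l z) :
    Inv i (w.foldl rstep l) (w.foldl (blkMA strict M i).stp z) := by
  induction w generalizing l z with
  | nil => exact h
  | cons a w ih => exact ih _ _ (inv_step strict M i l z a h)

theorem inv_out [Finite A] (strict : Prop) (M : LimAut A) (i : ℕ) (w : List A) :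
    Inv i (rle w) ((blkMA strict M i).out w) :=
  inv_foldl strict M i w [] (none, 0) rfl

/-- The block `i` as a word. -/
def blk (w : List A) (i : ℕ) : List A := dec ((rle w).reverse[i]?.toList)

theorem walk_blk [Finite A] (strict : Prop) (M : LimAut A) (w : List A) (i : ℕ) (x y : Tb M) :
    Walk ((blkMA strict M i).E ((blkMA strict M i).out w).1) ((blkMA strict M i).out w).2 x y ↔
      runs strict M (blk w i) x y := by
  have h := inv_out strict M i w
  unfold blk
  generalize rle w = l at h
  generalize (blkMA strict M i).out w = z at h
  rcases l with _ | ⟨p, t⟩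
  · have hz : z = (none, 0) := h
    subst hz
    exact Iff.rfl
  · obtain ⟨j, c, n, hz, h⟩ := h
    subst hz
    rcases h with ⟨h1, h2, h3, h4⟩ | ⟨h1, h2, h3, h4⟩ | ⟨h1, h2, h3⟩
    · have e : (p :: t).reverse[i]? = none := by
        rw [List.getElem?_eq_none]
        simp
        omega
      rw [e, h4]
      exact Iff.rfl
    · have e : (p :: t).reverse[i]? = some (c, n) := by
        rw [List.reverse_cons, List.getElem?_append_right (by simp; omega)]
        simp [h1, h3, h4]
      rw [e]
      have e2 : dec (Option.toList (some (c, n))) = List.replicate n c := by simp [dec]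
      rw [e2, runs_replicate]
    · rw [h3]
      have e2 : dec (Option.toList (some (c, n))) = List.replicate n c := by simp [dec]
      rw [e2, runs_replicate]

theorem flatMap_blk (w : List A) (k : ℕ) :
    (List.range k).flatMap (blk w) = dec ((rle w).reverse.take k) := by
  induction k with
  | zero => simp [dec]
  | succ k ih =>
    rw [List.range_succ, List.flatMap_append, ih, List.take_add_one]
    simp [dec, blk]

theorem reach_blk [Finite A] (strict : Prop) (M : LimAut A) (w : List A) (k : ℕ)
    (hk : (rle w).length ≤ k) (x y : Tb M) :
    reach w ((List.range k).map (blkMA strict M)) x y ↔ runs strict M w x y := by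
  rw [reach_map strict M w (blkMA strict M) (blk w) (walk_blk strict M w), flatMap_blk,
    List.take_of_length_le (by simpa using hk), dec_rle]

omit [DecidableEq A] in
theorem stp_fst {X : Type} (B : MA A X) (w : List A) (z : B.S × ℕ) :
    (w.foldl B.stp z).1 = w.foldl B.st z.1 := by
  induction w generalizing z with
  | nil => rfl
  | cons a w ih => rw [List.foldl_cons, ih]; rfl

/-- The test for at most `k` blocks. -/
def fmt (k : ℕ) : Option (Fin (k + 2) × A) → Bool
  | none => true
  | some (j, _) => decide (j.val < k)

theorem fmt_iff [Finite A] (M : LimAut A) (k : ℕ) (w : List A) :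
    fmt k (w.foldl (blkSt k) none) = true ↔ (rle w).length ≤ k := by
  have h := inv_out True M k w
  have e : w.foldl (blkSt k) none = ((blkMA True M k).out w).1 :=
    (stp_fst (blkMA True M k) w (none, 0)).symm
  rw [e]
  generalize rle w = l at h
  generalize (blkMA True M k).out w = z at h
  rcases l with _ | ⟨p, t⟩
  · have hz : z = (none, 0) := h
    subst hz
    simp [fmt]
  · obtain ⟨j, c, n, hz, h⟩ := h
    subst hz
    simp only [fmt, decide_eq_true_eq, List.length_cons]
    omega

end blocks

end Pool.Agent.R561.CM
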