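import Mathlib
import Pool.Agent.R561.CM.Leaf

set_option autoImplicit false

/-!
# Divide and conquer with general leaves
-/

namespace Pool.Agent.R561.CM

open Relation Pool.Agent.TH588.WD.Cmd
open Pool.Agent.H630R2.LA (Sym)
open Pool.Agent.TH588.WD (Cmd)

section dcg

variable {A X ι : Type}

/-- Chains. -/
def reachG (rel : ι → X → X → Prop) : List ι → X → X → Prop
  | [], x, y => x = y
  | i :: l, x, y => ∃ z, rel i x z ∧ reachG rel l z y

theorem reachG_append (rel : ι → X → X → Prop) (l l' : List ι) (x y : X) :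
    reachG rel (l ++ l') x y ↔ ∃ z, reachG rel l x z ∧ reachG rel l' z y := by
  induction l generalizing x with
  | nil => simp [reachG]
  | cons B l ih =>
    simp only [List.cons_append, reachG]
    constructor
    · rintro ⟨z, h1, h2⟩
      obtain ⟨z', h3, h4⟩ := (ih z).1 h2
      exact ⟨z', ⟨z, h1, h3⟩, h4⟩
    · rintro ⟨z', ⟨z, h1, h3⟩, h4⟩
      exact ⟨z, h1, (ih z).2 ⟨z', h3, h4⟩⟩

open Classical in
/-- Divide and conquer. -/
noncomputable def dcG (leaf : ι → X → X → Cmd (Sym (Option A)) Bool) (L : List X) :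
    ℕ → List ι → X → X → Cmd (Sym (Option A)) Bool
  | 0, [], x, y => ret (decide (x = y))
  | 0, i :: _, x, y => leaf i x y
  | d + 1, l, x, y => orL L (fun z =>
      ite (dcG leaf L d (l.take (2 ^ d)) x z) (dcG leaf L d (l.drop (2 ^ d)) z y) (ret false))

theorem decides_dcG (leaf : ι → X → X → Cmd (Sym (Option A)) Bool) (L : List X)
    (hL : ∀ x, x ∈ L) (w : List A) (rel : ι → X → X → Prop)
    (hleaf : ∀ i x y, Decides (tape w) (w.length + 1) (leaf i x y) 1 1 (rel i x y)) (d : ℕ)
    (l : List ι) (hl : l.length ≤ 2 ^ d) (x y : X) :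
    Decides (tape w) (w.length + 1) (dcG leaf L d l x y) 1 1 (reachG rel l x y) := by
  induction d generalizing l x y with
  | zero =>
    rcases l with _ | ⟨i, l⟩
    · refine (decides_ret _ _ _ _).congr ?_
      simp [reachG]
    · have hl' : l = [] := by
        have h1 : l.length + 1 ≤ 1 := by simpa using hl
        exact List.length_eq_zero_iff.1 (by omega)
      subst hl'
      refine (hleaf i x y).congr ?_
      simp [reachG]
  | succ d ih =>
    have h1 : (l.take (2 ^ d)).length ≤ 2 ^ d := by simp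
    have h2 : (l.drop (2 ^ d)).length ≤ 2 ^ d := by
      rw [List.length_drop]
      rw [pow_succ] at hl
      omega
    refine (decides_orL _ _ _ (fun z => decides_ite (ih _ h1 x z) (fun _ => ih _ h2 z y)
      (fun _ => decides_ret _ _ _ _))).congr ?_
    conv_rhs => rw [← List.take_append_drop (2 ^ d) l]
    rw [reachG_append]
    constructor
    · rintro ⟨z, _, h | h⟩
      · exact ⟨z, h.1, h.2⟩
      · exact absurd h.2 (by simp)
    · rintro ⟨z, h3, h4⟩
      exact ⟨z, hL z, Or.inl ⟨h3, h4⟩⟩

theorem cnt_dcG (leaf : ι → X → X → Cmd (Sym (Option A)) Bool) (L : List X) (t d : ℕ)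
    (l : List ι) (ht : ∀ i ∈ l, ∀ x y, (leaf i x y).cnt ≤ t) (x y : X) :
    (dcG leaf L d l x y).cnt ≤ (2 * L.length) ^ d * t := by
  induction d generalizing l x y with
  | zero =>
    rw [pow_zero, Nat.one_mul]
    rcases l with _ | ⟨i, l⟩
    · exact Nat.zero_le _
    · exact ht i List.mem_cons_self x y
  | succ d ih =>
    have h1 := cnt_orL L (fun z => ite (dcG leaf L d (l.take (2 ^ d)) x z)
      (dcG leaf L d (l.drop (2 ^ d)) z y) (ret false)) (2 * ((2 * L.length) ^ d * t)) (by
        intro z
        have h2 := ih (l.take (2 ^ d)) (fun B hB => ht B (List.mem_of_mem_take hB)) x z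
        have h3 := ih (l.drop (2 ^ d)) (fun B hB => ht B (List.mem_of_mem_drop hB)) z y
        simp only [cnt]
        omega)
    refine h1.trans (le_of_eq ?_)
    ring

open Classical in
/-- The whole program. -/
noncomputable def topG (leaf : ι → X → X → Cmd (Sym (Option A)) Bool) (L : List X) (F : X → Prop)
    (d : ℕ) (l : List ι) (x : X) : Cmd (Sym (Option A)) Bool :=
  orL L (fun y => ite (dcG leaf L d l x y) (ret (decide (F y))) (ret false))

theorem decides_topG (leaf : ι → X → X → Cmd (Sym (Option A)) Bool) (L : List X)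
    (hL : ∀ x, x ∈ L) (F : X → Prop) (w : List A) (rel : ι → X → X → Prop)
    (hleaf : ∀ i x y, Decides (tape w) (w.length + 1) (leaf i x y) 1 1 (rel i x y)) (d : ℕ)
    (l : List ι) (hl : l.length ≤ 2 ^ d) (x : X) :
    Decides (tape w) (w.length + 1) (topG leaf L F d l x) 1 1 (∃ y, reachG rel l x y ∧ F y) := by
  refine (decides_orL _ _ _ (fun y => decides_ite (decides_dcG leaf L hL w rel hleaf d l hl x y)
    (fun _ => decides_ret _ _ _ _) (fun _ => decides_ret _ _ _ _))).congr ?_
  constructor
  · rintro ⟨y, _, h | h⟩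
    · exact ⟨y, h.1, by simpa using h.2⟩
    · exact absurd h.2 (by simp)
  · rintro ⟨y, h1, h2⟩
    exact ⟨y, hL y, Or.inl ⟨h1, by simpa using h2⟩⟩

theorem cnt_topG (leaf : ι → X → X → Cmd (Sym (Option A)) Bool) (L : List X) (F : X → Prop)
    (t d : ℕ) (l : List ι) (ht : ∀ i ∈ l, ∀ x y, (leaf i x y).cnt ≤ t) (x : X) :
    (topG leaf L F d l x).cnt ≤ 2 ^ d * L.length ^ (d + 1) * t := by
  classical
  have h1 := cnt_orL L (fun y => ite (dcG leaf L d l x y) (ret (decide (F y))) (ret false))
    ((2 * L.length) ^ d * t) (by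
      intro y
      have h2 := cnt_dcG leaf L t d l ht x y
      simp only [cnt]
      omega)
  refine h1.trans (le_of_eq ?_)
  rw [mul_pow]
  ring

end dcg

end Pool.Agent.R561.CM
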