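import Mathlib
import Pool.Agent.R561.CM.Blocks

set_option autoImplicit false

/-!
# The machines and their sizes
-/

namespace Pool.Agent.R561.CM

open Relation Pool.Agent.TH588.WD.Cmd
open Pool.Agent.H630R2.LA
open Pool.Agent.TH588.WD (Cmd)
open Pool.Agent.H542.UN

theorem sq_le_two_pow (a : ℕ) : (a + 3) ^ 2 ≤ 9 * 2 ^ a := by
  induction a with
  | zero => norm_num
  | succ a ih =>
    have e : 2 ^ (a + 1) = 2 * 2 ^ a := by ring
    rw [e]
    nlinarith [Nat.zero_le a, Nat.zero_le (a ^ 2)]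

variable {A : Type}

theorem card_tb_le (M : LimAut A) :
    Nat.card (Tb M) ≤ 2 ^ (Nat.card M.Q ^ 2 + Nat.card M.Q) := by
  have := M.finQ
  rw [card_table, pow_add, sq]
  exact Nat.mul_le_mul_left _ Nat.lt_two_pow_self.le

theorem finite_alphabet (M : LimAut A) : Finite A := by
  have := M.finW
  exact Finite.of_injective M.inp M.inp_inj

/-- **The rearranged language.** -/
theorem arranged (strict : Prop) (M : LimAut A) [DecidableEq A] (l : List A) (hn : l.Nodup)
    (hl : ∀ a, a ∈ l) :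
    ∃ M' : LimAut A, M'.Deterministic ∧ NeverRewrites M' ∧
      (∀ (strict' : Prop) (w : List A), w ∈ M'.language strict' ↔ arr l w ∈ M.language strict) ∧
      M'.size ≤ 2 ^ ((Nat.clog 2 (Nat.card A) + 5) * (Nat.card M.Q ^ 2 + Nat.card M.Q) +
        2 * Nat.clog 2 (Nat.card A) + 8) := by
  have hA := finite_alphabet M
  have hQ := M.finQ
  have hfA := Fintype.ofFinite A
  have hfX : Fintype (Tb M) := Fintype.ofFinite _
  let L : List (Tb M) := Finset.univ.toList
  have hL : ∀ x, x ∈ L := fun x => Finset.mem_toList.2 (Finset.mem_univ x)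
  have hLl : L.length = Nat.card (Tb M) := by
    rw [Finset.length_toList, Finset.card_univ, Nat.card_eq_fintype_card]
  have hll : l.length = Nat.card A := by
    rw [← List.toFinset_card_of_nodup hn]
    have h1 : l.toFinset = Finset.univ := by
      ext a
      simp [hl]
    rw [h1, Finset.card_univ, Nat.card_eq_fintype_card]
  have hd : Nat.card A ≤ 2 ^ Nat.clog 2 (Nat.card A) := Nat.le_pow_clog (by norm_num) _
  let c := top L (finX strict M) (Nat.clog 2 (Nat.card A)) (l.map (cntMA strict M)) (x0 strict M)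
  refine ⟨prog c, prog_det c, prog_nr c, ?_, ?_⟩
  · intro strict' w
    rw [mem_prog c strict' w _ (decides_top L hL (finX strict M) w _ _
      (by rw [List.length_map, hll]; exact hd) _), mem_language_runs]
    simp only [reach_count]
  · have h1 := size_prog c
    have h4 : c.cnt ≤ _ := cnt_top L hLl (finX strict M) 1 (Nat.clog 2 (Nat.card A))
      (l.map (cntMA strict M))
      (by
        intro B hB
        obtain ⟨a, _, rfl⟩ := List.mem_map.1 hB
        show Nat.card Unit ≤ 1
        simp) (x0 strict M)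
    have hr : 1 ≤ Nat.card (Tb M) := by
      have : Nonempty (Tb M) := ⟨x0 strict M⟩
      exact Nat.card_pos
    generalize Nat.clog 2 (Nat.card A) = κ at *
    have h5 : Nat.card (Tb M) ^ (κ + 5) ≤
        2 ^ ((κ + 5) * (Nat.card M.Q ^ 2 + Nat.card M.Q)) := by
      calc Nat.card (Tb M) ^ (κ + 5)
          ≤ (2 ^ (Nat.card M.Q ^ 2 + Nat.card M.Q)) ^ (κ + 5) :=
            Nat.pow_le_pow_left (card_tb_le M) _
        _ = _ := by rw [← pow_mul, mul_comm]
    have h6 : 1 ≤ Nat.card (Tb M) ^ (κ + 5) := Nat.one_le_pow _ _ hr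
    have h8 : 1 ≤ 2 ^ κ := Nat.one_le_two_pow
    generalize Nat.card (Tb M) ^ (κ + 5) = R at *
    generalize hE : 2 ^ ((κ + 5) * (Nat.card M.Q ^ 2 + Nat.card M.Q)) = E at *
    rw [pow_add, pow_add, hE, mul_comm 2 κ, pow_mul]
    generalize Nat.card A = α at *
    generalize 2 ^ κ = P at *
    have h9 : c.cnt + 3 ≤ 8 * (P * R) := by
      have : 1 ≤ P * R := Nat.mul_pos h8 h6
      have h10 : (3 * 1 + 2) * P * R = 5 * (P * R) := by ring
      omega
    have h11 : α + 3 ≤ 4 * P := by omega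
    calc (prog c).size ≤ 8 * (c.cnt + 3) * (α + 3) := h1
      _ ≤ 8 * (8 * (P * R)) * (4 * P) :=
          Nat.mul_le_mul (Nat.mul_le_mul_left _ h9) h11
      _ = 256 * P ^ 2 * R := by ring
      _ ≤ 256 * P ^ 2 * E := Nat.mul_le_mul_left _ h5
      _ = E * P ^ 2 * 2 ^ 8 := by ring

/-- **Few blocks.** -/
theorem few_blocks (strict : Prop) (M : LimAut A) (k : ℕ) :
    ∃ M' : LimAut A, M'.Deterministic ∧ NeverRewrites M' ∧
      (∀ (strict' : Prop) (w : List A), w ∈ M'.language strict' ↔ w ∈ M.language strict ∧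
        ∃ u : List (A × ℕ), u.length ≤ k ∧ w = u.flatMap (fun p => List.replicate p.2 p.1)) ∧
      M'.size ≤ 2 ^ ((Nat.clog 2 k + 5) * (Nat.card M.Q ^ 2 + Nat.card M.Q) +
        2 * Nat.clog 2 k + Nat.card A + 10) := by
  classical
  have hA := finite_alphabet M
  have hQ := M.finQ
  have hfX : Fintype (Tb M) := Fintype.ofFinite _
  let L : List (Tb M) := Finset.univ.toList
  have hL : ∀ x, x ∈ L := fun x => Finset.mem_toList.2 (Finset.mem_univ x)
  have hLl : L.length = Nat.card (Tb M) := by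
    rw [Finset.length_toList, Finset.card_univ, Nat.card_eq_fintype_card]
  have hd : k ≤ 2 ^ Nat.clog 2 k := Nat.le_pow_clog (by norm_num) _
  let c1 : Cmd (Sym (Option A)) Bool := dfaL none (blkSt k) (fmt k)
  let c2 := top L (finX strict M) (Nat.clog 2 k) ((List.range k).map (blkMA strict M))
    (x0 strict M)
  let c := ite c1 c2 (ret false)
  refine ⟨prog c, prog_det c, prog_nr c, ?_, ?_⟩
  · intro strict' w
    rw [mem_prog c strict' w _ (decides_ite (decides_dfaL _ _ _ w)
      (fun _ => decides_top L hL (finX strict M) w _ _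
        (by rw [List.length_map, List.length_range]; exact hd) _)
      (fun _ => decides_ret _ _ _ _)),
      mem_language_runs, fmt_iff M, prod_iff]
    constructor
    · rintro (⟨h1, y, h2, h3⟩ | ⟨_, h⟩)
      · rw [reach_blk strict M w k h1] at h2
        exact ⟨⟨y, h2, h3⟩, h1⟩
      · exact absurd h (by simp)
    · rintro ⟨⟨y, h2, h3⟩, h1⟩
      refine Or.inl ⟨h1, y, ?_, h3⟩
      rw [reach_blk strict M w k h1]
      exact h2
  · have h1 := size_prog c
    have hS : ∀ i : ℕ, Nat.card (Option (Fin (i + 2) × A)) = (i + 2) * Nat.card A + 1 := by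
      intro i
      rw [Finite.card_option, Nat.card_prod, Nat.card_eq_fintype_card (α := Fin _),
        Fintype.card_fin]
    have h4 : c2.cnt ≤ _ := cnt_top L hLl (finX strict M) ((k + 1) * Nat.card A + 1)
      (Nat.clog 2 k) ((List.range k).map (blkMA strict M))
      (by
        intro B hB
        obtain ⟨i, hi, rfl⟩ := List.mem_map.1 hB
        rw [List.mem_range] at hi
        show Nat.card (Option (Fin (i + 2) × A)) ≤ _
        rw [hS]
        refine Nat.add_le_add_right (Nat.mul_le_mul_right _ ?_) 1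
        omega) (x0 strict M)
    have hr : 1 ≤ Nat.card (Tb M) := by
      have : Nonempty (Tb M) := ⟨x0 strict M⟩
      exact Nat.card_pos
    have hc : c.cnt = (k + 2) * Nat.card A + 1 + 2 + (c2.cnt + 0) := by
      show c1.cnt + (c2.cnt + 0) = _
      rw [cnt_dfaL, hS]
    generalize Nat.clog 2 k = κ at *
    have h5 : Nat.card (Tb M) ^ (κ + 5) ≤
        2 ^ ((κ + 5) * (Nat.card M.Q ^ 2 + Nat.card M.Q)) := by
      calc Nat.card (Tb M) ^ (κ + 5)
          ≤ (2 ^ (Nat.card M.Q ^ 2 + Nat.card M.Q)) ^ (κ + 5) :=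
            Nat.pow_le_pow_left (card_tb_le M) _
        _ = _ := by rw [← pow_mul, mul_comm]
    have h6 : 1 ≤ Nat.card (Tb M) ^ (κ + 5) := Nat.one_le_pow _ _ hr
    have h7 := sq_le_two_pow (Nat.card A)
    have h8 : 1 ≤ 2 ^ κ := Nat.one_le_two_pow
    generalize Nat.card (Tb M) ^ (κ + 5) = R at *
    generalize hE : 2 ^ ((κ + 5) * (Nat.card M.Q ^ 2 + Nat.card M.Q)) = E at *
    have e1 : 2 ^ ((κ + 5) * (Nat.card M.Q ^ 2 + Nat.card M.Q) + 2 * κ + Nat.card A + 10) =
        E * (2 ^ κ) ^ 2 * 2 ^ Nat.card A * 2 ^ 10 := by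
      rw [pow_add, pow_add, pow_add, hE, mul_comm 2 κ, pow_mul]
    rw [e1]
    generalize Nat.card A = α at *
    generalize 2 ^ α = T at *
    generalize 2 ^ κ = P at *
    have h9 : c.cnt + 3 ≤ 9 * P ^ 2 * (α + 3) * R := by
      have a1 : c.cnt + 3 = ((k + 2) * α + 6) + c2.cnt := by rw [hc]; ring
      have a2 : (k + 2) * α + 6 ≤ P ^ 2 * (3 * α + 6) := by
        have b1 : k + 2 ≤ 3 * P := by omega
        have b2 : 3 * P ≤ 3 * P ^ 2 := by nlinarith
        have b3 : 1 ≤ P ^ 2 := Nat.one_le_pow _ _ h8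
        calc (k + 2) * α + 6 ≤ 3 * P ^ 2 * α + 6 * P ^ 2 :=
              Nat.add_le_add (Nat.mul_le_mul_right _ (b1.trans b2)) (by omega)
          _ = P ^ 2 * (3 * α + 6) := by ring
      have a3 : (3 * ((k + 1) * α + 1) + 2) * P ≤ P ^ 2 * (6 * α + 5) := by
        have b1 : (k + 1) * α ≤ (2 * P) * α := Nat.mul_le_mul_right _ (by omega)
        calc (3 * ((k + 1) * α + 1) + 2) * P ≤ (3 * ((2 * P) * α + 1) + 2) * P := by
              refine Nat.mul_le_mul_right _ ?_
              omega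
          _ = 6 * P ^ 2 * α + 5 * P := by ring
          _ ≤ 6 * P ^ 2 * α + 5 * P ^ 2 := by
              refine Nat.add_le_add_left ?_ _
              nlinarith
          _ = P ^ 2 * (6 * α + 5) := by ring
      calc c.cnt + 3 = ((k + 2) * α + 6) * 1 + c2.cnt := by rw [a1]; ring
        _ ≤ (P ^ 2 * (3 * α + 6)) * R + (3 * ((k + 1) * α + 1) + 2) * P * R :=
            Nat.add_le_add (Nat.mul_le_mul a2 h6) h4
        _ ≤ (P ^ 2 * (3 * α + 6)) * R + (P ^ 2 * (6 * α + 5)) * R :=
            Nat.add_le_add_left (Nat.mul_le_mul_right _ a3) _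
        _ = P ^ 2 * (9 * α + 11) * R := by ring
        _ ≤ P ^ 2 * (9 * (α + 3)) * R := by
            refine Nat.mul_le_mul_right _ (Nat.mul_le_mul_left _ ?_)
            omega
        _ = 9 * P ^ 2 * (α + 3) * R := by ring
    calc (prog c).size ≤ 8 * (c.cnt + 3) * (α + 3) := h1
      _ ≤ 8 * (9 * P ^ 2 * (α + 3) * R) * (α + 3) :=
          Nat.mul_le_mul_right _ (Nat.mul_le_mul_left _ h9)
      _ = 72 * P ^ 2 * (R * (α + 3) ^ 2) := by ring
      _ ≤ 72 * P ^ 2 * (E * (9 * T)) := Nat.mul_le_mul_left _ (Nat.mul_le_mul h5 h7)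
      _ = E * P ^ 2 * T * 648 := by ring
      _ ≤ E * P ^ 2 * T * 2 ^ 10 := Nat.mul_le_mul_left _ (by norm_num)

end Pool.Agent.R561.CM
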