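import Mathlib
import Pool.Agent.R561.CM.Blocks
import Pool.Agent.R561.CM.Dcg

set_option autoImplicit false

/-!
# Greedy factorization into words with small periods
-/

namespace Pool.Agent.R561.CM

open Relation Pool.Agent.TH588.WD.Cmd
open Pool.Agent.H630R2.LA
open Pool.Agent.TH588.WD (Cmd)
open Pool.Agent.H542.UN

variable {A : Type}

/-- `p` is a period of `x`. -/
def HasPer (x : List A) (p : ℕ) : Prop := ∀ i, i + p < x.length → x[i]? = x[i + p]?

/-- `x` has a period between `1` and `ℓ`. -/
def Per (ℓ : ℕ) (x : List A) : Prop := ∃ p, p < ℓ ∧ HasPer x (p + 1)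

theorem hasPer_cons (a : A) (x : List A) (p : ℕ) :
    HasPer (a :: x) (p + 1) ↔ HasPer x (p + 1) ∧ (x[p]? = none ∨ x[p]? = some a) := by
  constructor
  · intro h
    refine ⟨?_, ?_⟩
    · intro i hi
      have h1 := h (i + 1) (by simp only [List.length_cons]; omega)
      have e : i + 1 + (p + 1) = (i + (p + 1)) + 1 := by omega
      rw [e, List.getElem?_cons_succ, List.getElem?_cons_succ] at h1
      exact h1
    · rcases Nat.lt_or_ge p x.length with hp | hp
      · right
        have h1 := h 0 (by simp only [List.length_cons]; omega)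
        have e : 0 + (p + 1) = p + 1 := by omega
        rw [e, List.getElem?_cons_zero, List.getElem?_cons_succ] at h1
        exact h1.symm
      · left
        exact List.getElem?_eq_none hp
  · rintro ⟨h1, h2⟩ i hi
    simp only [List.length_cons] at hi
    rcases i with _ | i
    · have e : 0 + (p + 1) = p + 1 := by omega
      rw [e, List.getElem?_cons_zero, List.getElem?_cons_succ]
      rcases h2 with h2 | h2
      · rw [List.getElem?_eq_none_iff] at h2
        omega
      · exact h2.symm
    · have e : i + 1 + (p + 1) = (i + (p + 1)) + 1 := by omega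
      rw [e, List.getElem?_cons_succ, List.getElem?_cons_succ]
      exact h1 i (by omega)

theorem hasPer_suffix (u y : List A) (p : ℕ) (h : HasPer (u ++ y) p) : HasPer y p := by
  intro i hi
  have h1 := h (u.length + i) (by rw [List.length_append]; omega)
  rw [List.getElem?_append_right (by omega), List.getElem?_append_right (by omega)] at h1
  have e1 : u.length + i - u.length = i := by omega
  have e2 : u.length + i + p - u.length = i + p := by omega
  rw [e1, e2] at h1
  exact h1

theorem hasPer_pre (u y : List A) (p : ℕ) (h : HasPer (u ++ y) p) : HasPer u p := by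
  intro i hi
  have h1 := h i (by rw [List.length_append]; omega)
  rw [List.getElem?_append_left (by omega), List.getElem?_append_left (by omega)] at h1
  exact h1

theorem hasPer_reverse (x : List A) (p : ℕ) (h : HasPer x p) : HasPer x.reverse p := by
  intro i hi
  rw [List.length_reverse] at hi
  rw [List.getElem?_reverse (by omega), List.getElem?_reverse (by omega)]
  have h1 := h (x.length - 1 - (i + p)) (by omega)
  have e : x.length - 1 - (i + p) + p = x.length - 1 - i := by omega
  rw [e] at h1
  exact h1.symm

theorem per_suffix (ℓ : ℕ) (u y : List A) (h : Per ℓ (u ++ y)) : Per ℓ y := by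
  obtain ⟨p, h1, h2⟩ := h
  exact ⟨p, h1, hasPer_suffix u y _ h2⟩

theorem per_pre (ℓ : ℕ) (u y : List A) (h : Per ℓ (u ++ y)) : Per ℓ u := by
  obtain ⟨p, h1, h2⟩ := h
  exact ⟨p, h1, hasPer_pre u y _ h2⟩

theorem hasPer_mod (x : List A) (p : ℕ) (hp : 0 < p) (h : HasPer x p) (t : ℕ)
    (ht : t < x.length) : x[t]? = x[t % p]? := by
  induction t using Nat.strong_induction_on with
  | _ t ih =>
    rcases Nat.lt_or_ge t p with h1 | h1
    · rw [Nat.mod_eq_of_lt h1]
    · have h2 := ih (t - p) (by omega) (by omega)
      have h3 := h (t - p) (by omega)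
      have e : t - p + p = t := by omega
      rw [e] at h3
      rw [← h3, h2, Nat.mod_eq_sub_mod h1]

open Classical in
/-- One step of the greedy factorization; the blocks are reversed, the last block comes first. -/
noncomputable def pstep (ℓ : ℕ) : List (List A) → A → List (List A)
  | [], a => [[a]]
  | x :: t, a => if Per ℓ (a :: x) then (a :: x) :: t else [a] :: x :: t

/-- The greedy factorization. -/
noncomputable def gf (ℓ : ℕ) (w : List A) : List (List A) := w.foldl (pstep ℓ) []

/-- The word that is factorized. -/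
def decP (l : List (List A)) : List A := l.flatMap List.reverse

theorem decP_pstep (ℓ : ℕ) (l : List (List A)) (a : A) :
    decP (pstep ℓ l a).reverse = decP l.reverse ++ [a] := by
  rcases l with _ | ⟨x, t⟩
  · simp [pstep, decP]
  · by_cases h : Per ℓ (a :: x)
    · simp [pstep, decP, h]
    · simp [pstep, decP, h]

theorem decP_foldl (ℓ : ℕ) (w : List A) (l : List (List A)) :
    decP (w.foldl (pstep ℓ) l).reverse = decP l.reverse ++ w := by
  induction w generalizing l with
  | nil => simp
  | cons a w ih => rw [List.foldl_cons, ih, decP_pstep]; simp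

theorem decP_gf (ℓ : ℕ) (w : List A) : decP (gf ℓ w).reverse = w := by
  have h := decP_foldl ℓ w []
  have h2 : decP ([] : List (List A)).reverse ++ w = w := rfl
  rw [h2] at h
  exact h

theorem per_single (ℓ : ℕ) (hℓ : 1 ≤ ℓ) (a : A) : Per ℓ [a] := by
  refine ⟨0, by omega, ?_⟩
  intro i hi
  simp only [List.length_singleton] at hi
  omega

theorem per_pstep (ℓ : ℕ) (hℓ : 1 ≤ ℓ) (l : List (List A)) (a : A) (h : ∀ x ∈ l, Per ℓ x) :
    ∀ x ∈ pstep ℓ l a, Per ℓ x := by
  rcases l with _ | ⟨y, t⟩
  · intro x hx
    simp only [pstep, List.mem_singleton] at hx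
    rw [hx]
    exact per_single ℓ hℓ a
  · intro x hx
    by_cases h1 : Per ℓ (a :: y)
    · simp only [pstep, h1, if_true, List.mem_cons] at hx
      rcases hx with hx | hx
      · rw [hx]; exact h1
      · exact h x (List.mem_cons_of_mem _ hx)
    · simp only [pstep, h1, if_false, List.mem_cons] at hx
      rcases hx with hx | hx | hx
      · rw [hx]; exact per_single ℓ hℓ a
      · exact h x (List.mem_cons.2 (Or.inl hx))
      · exact h x (List.mem_cons_of_mem _ hx)

theorem per_foldl (ℓ : ℕ) (hℓ : 1 ≤ ℓ) (w : List A) (l : List (List A)) (h : ∀ x ∈ l, Per ℓ x) :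
    ∀ x ∈ w.foldl (pstep ℓ) l, Per ℓ x := by
  induction w generalizing l with
  | nil => exact h
  | cons a w ih => exact ih _ (per_pstep ℓ hℓ l a h)

theorem per_gf (ℓ : ℕ) (hℓ : 1 ≤ ℓ) (w : List A) : ∀ x ∈ gf ℓ w, Per ℓ x :=
  per_foldl ℓ hℓ w [] (fun x hx => absurd hx (by simp))

theorem length_stay (ℓ : ℕ) (v x : List A) (t : List (List A)) (h : Per ℓ (v.reverse ++ x)) :
    (v.foldl (pstep ℓ) (x :: t)).length = t.length + 1 := by
  induction v generalizing x with
  | nil => rfl
  | cons a v ih =>
    have e : (a :: v).reverse ++ x = v.reverse ++ (a :: x) := by simp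
    rw [e] at h
    have h1 : Per ℓ (a :: x) := per_suffix ℓ _ _ h
    rw [List.foldl_cons]
    have h2 : pstep ℓ (x :: t) a = (a :: x) :: t := by simp [pstep, h1]
    rw [h2]
    exact ih _ h

theorem length_factor (ℓ : ℕ) (v : List A) (l : List (List A)) (h : Per ℓ v.reverse) :
    (v.foldl (pstep ℓ) l).length ≤ l.length + 1 := by
  induction v generalizing l with
  | nil => simp
  | cons a v ih =>
    rw [List.foldl_cons]
    have e : (a :: v).reverse = v.reverse ++ [a] := by simp
    rcases l with _ | ⟨x, t⟩
    · have h2 : pstep ℓ ([] : List (List A)) a = [a] :: [] := rfl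
      rw [h2, length_stay ℓ v [a] [] (by rw [← e]; exact h)]
    · by_cases h1 : Per ℓ (a :: x)
      · have h2 : pstep ℓ (x :: t) a = (a :: x) :: t := by simp [pstep, h1]
        rw [h2]
        have h3 := ih ((a :: x) :: t) (per_pre ℓ _ _ (by rw [← e]; exact h))
        simpa using h3
      · have h2 : pstep ℓ (x :: t) a = [a] :: (x :: t) := by simp [pstep, h1]
        rw [h2, length_stay ℓ v [a] (x :: t) (by rw [← e]; exact h)]

theorem length_factors (ℓ : ℕ) (u : List (List A)) (hu : ∀ v ∈ u, Per ℓ v.reverse)
    (l : List (List A)) : ((u.flatten).foldl (pstep ℓ) l).length ≤ l.length + u.length := by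
  induction u generalizing l with
  | nil => simp
  | cons v u ih =>
    rw [List.flatten_cons, List.foldl_append]
    have h1 := ih (fun v' hv' => hu v' (List.mem_cons_of_mem _ hv')) (v.foldl (pstep ℓ) l)
    have h2 := length_factor ℓ v l (hu v List.mem_cons_self)
    simp only [List.length_cons]
    omega

/-- The words that are products of at most `k` words with a period between `1` and `ℓ`. -/
theorem gf_iff (ℓ : ℕ) (hℓ : 1 ≤ ℓ) (w : List A) (k : ℕ) :
    (∃ u : List (List A), u.length ≤ k ∧ (∀ v ∈ u, ∃ p, 1 ≤ p ∧ p ≤ ℓ ∧ HasPer v p) ∧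
      w = u.flatten) ↔ (gf ℓ w).length ≤ k := by
  constructor
  · rintro ⟨u, h1, h2, h3⟩
    have h4 := length_factors ℓ u (fun v hv => by
      obtain ⟨p, hp1, hp2, hp⟩ := h2 v hv
      refine ⟨p - 1, by omega, ?_⟩
      have e : p - 1 + 1 = p := by omega
      rw [e]
      exact hasPer_reverse v p hp) []
    rw [← h3] at h4
    have h5 : (gf ℓ w).length ≤ 0 + u.length := h4
    omega
  · intro h
    refine ⟨(gf ℓ w).reverse.map List.reverse, by simpa using h, ?_, ?_⟩
    · intro v hv
      obtain ⟨x, hx, rfl⟩ := List.mem_map.1 hv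
      obtain ⟨p, hp1, hp2⟩ := per_gf ℓ hℓ w x (List.mem_reverse.1 hx)
      exact ⟨p + 1, by omega, by omega, hasPer_reverse x _ hp2⟩
    · have h1 := decP_gf ℓ w
      unfold decP at h1
      rw [List.flatMap_def] at h1
      exact h1.symm

end Pool.Agent.R561.CM
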