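import Mathlib
import Pool.Agent.R561.CM.Period

set_option autoImplicit false

/-!
# Automata for the blocks of the greedy factorization
-/

namespace Pool.Agent.R561.CM

open Relation Pool.Agent.TH588.WD.Cmd
open Pool.Agent.H630R2.LA
open Pool.Agent.TH588.WD (Cmd)
open Pool.Agent.H542.UN

variable {A : Type}

/-- What is remembered of a block: the last letters, and which periods it has. -/
abbrev Inf (A : Type) (ℓ : ℕ) : Type := (Fin ℓ → Option A) × (Fin ℓ → Bool)

open Classical in
/-- The information about the (reversed) block `x`. -/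
noncomputable def info (ℓ : ℕ) (x : List A) : Inf A ℓ :=
  (fun i => x[i.val]?, fun i => decide (HasPer x (i.val + 1)))

open Classical in
/-- The information about the block with one more letter. -/
noncomputable def infoStep {ℓ : ℕ} (s : Inf A ℓ) (a : A) : Inf A ℓ :=
  (fun i => if i.val = 0 then some a else s.1 ⟨i.val - 1, by omega⟩,
    fun i => decide (s.2 i = true ∧ (s.1 i = none ∨ s.1 i = some a)))

theorem info_snd (ℓ : ℕ) (x : List A) (i : Fin ℓ) :
    (info ℓ x).2 i = true ↔ HasPer x (i.val + 1) := by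
  simp [info]

theorem infoStep_snd {ℓ : ℕ} (s : Inf A ℓ) (a : A) (i : Fin ℓ) :
    (infoStep s a).2 i = true ↔ (s.2 i = true ∧ (s.1 i = none ∨ s.1 i = some a)) := by
  simp [infoStep]

theorem info_cons (ℓ : ℕ) (a : A) (x : List A) : info ℓ (a :: x) = infoStep (info ℓ x) a := by
  refine Prod.ext ?_ ?_
  · funext i
    show (a :: x)[i.val]? = if i.val = 0 then some a else x[i.val - 1]?
    by_cases h : i.val = 0
    · rw [if_pos h, h, List.getElem?_cons_zero]
    · rw [if_neg h]
      obtain ⟨m, hm⟩ : ∃ m, i.val = m + 1 := ⟨i.val - 1, by omega⟩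
      rw [hm, List.getElem?_cons_succ]
      rfl
  · funext i
    refine Bool.eq_iff_iff.2 ?_
    rw [info_snd, infoStep_snd, info_snd, hasPer_cons]
    exact Iff.rfl

/-- The block has a small period. -/
def Ok {ℓ : ℕ} (s : Inf A ℓ) : Prop := ∃ i, s.2 i = true

theorem ok_info (ℓ : ℕ) (x : List A) : Ok (info ℓ x) ↔ Per ℓ x := by
  constructor
  · rintro ⟨i, hi⟩
    have h : HasPer x (i.val + 1) := by simpa [info] using hi
    exact ⟨i.val, i.isLt, h⟩
  · rintro ⟨p, hp, h⟩
    exact ⟨⟨p, hp⟩, by simpa [info] using h⟩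

open Classical in
/-- A period of the block. -/
noncomputable def perOf {ℓ : ℕ} (s : Inf A ℓ) : ℕ := if h : Ok s then h.choose.val + 1 else 1

theorem perOf_pos {ℓ : ℕ} (s : Inf A ℓ) : 0 < perOf s := by
  unfold perOf
  split_ifs <;> omega

theorem perOf_le {ℓ : ℕ} (hℓ : 1 ≤ ℓ) (s : Inf A ℓ) : perOf s ≤ ℓ := by
  unfold perOf
  split_ifs with h
  · have := h.choose.isLt
    omega
  · exact hℓ

theorem hasPer_perOf (ℓ : ℕ) (x : List A) (h : Per ℓ x) : HasPer x (perOf (info ℓ x)) := by
  have h1 : Ok (info ℓ x) := (ok_info ℓ x).2 h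
  unfold perOf
  rw [dif_pos h1]
  have h2 := h1.choose_spec
  simpa [info] using h2

open Classical in
/-- The transitions of the automaton of the block `i`. -/
noncomputable def pSt (ℓ i : ℕ) : Option (Fin (i + 2) × Inf A ℓ) → A →
    Option (Fin (i + 2) × Inf A ℓ)
  | none, a => some (⟨0, by omega⟩, info ℓ [a])
  | some (j, s), a =>
    if j.val = i + 1 then some (j, s)
    else if Ok (infoStep s a) then some (j, infoStep s a)
    else if h : j.val < i then some (⟨j.val + 1, by omega⟩, info ℓ [a])
    else some (⟨i + 1, by omega⟩, s)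

open Classical in
/-- The marks: the letters of the block `i`. -/
noncomputable def pMark (ℓ i : ℕ) : Option (Fin (i + 2) × Inf A ℓ) → A → Bool
  | none, _ => decide (i = 0)
  | some (j, s), a => if Ok (infoStep s a) then decide (j.val = i) else decide (j.val + 1 = i)

/-- The edges: the second component is the number of the letters of the block that are left,
modulo the period. -/
def Ed (strict : Prop) (M : LimAut A) {ℓ : ℕ} (s : Inf A ℓ) (z z' : Tb M × Fin ℓ) : Prop :=
  z'.2.val < perOf s ∧ (z'.2.val + 1) % perOf s = z.2.val ∧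
    ∃ a, s.1 z'.2 = some a ∧ nstep strict M (.sym (M.inp a)) z.1 z'.1

/-- The automaton of the block `i`. -/
noncomputable abbrev pMA [Finite A] (strict : Prop) (M : LimAut A) (ℓ i : ℕ) :
    MA A (Tb M × Fin ℓ) where
  S := Option (Fin (i + 2) × Inf A ℓ)
  fin := inferInstance
  s0 := none
  st := pSt ℓ i
  mark := pMark ℓ i
  E := fun s => match s with
    | none => fun _ _ => False
    | some (_, s) => Ed strict M s

/-- The invariant. -/
def InvP (ℓ i : ℕ) (l : List (List A)) (z : Option (Fin (i + 2) × Inf A ℓ) × ℕ) : Prop :=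
  match l with
  | [] => z = (none, 0)
  | x :: t => ∃ j s n, z = (some (j, s), n) ∧
      ((t.length < i ∧ j.val = t.length ∧ s = info ℓ x ∧ n = 0) ∨
        (t.length = i ∧ j.val = i ∧ s = info ℓ x ∧ n = x.length) ∨
        (i < t.length ∧ j.val = i + 1 ∧
          ∃ x', (x :: t).reverse[i]? = some x' ∧ s = info ℓ x' ∧ n = x'.length))

theorem invP_step [Finite A] (strict : Prop) (M : LimAut A) (ℓ i : ℕ) (l : List (List A))
    (z : Option (Fin (i + 2) × Inf A ℓ) × ℕ) (a : A) (h : InvP ℓ i l z) :
    InvP ℓ i (pstep ℓ l a) ((pMA strict M ℓ i).stp z a) := by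
  rcases l with _ | ⟨x, t⟩
  · have hz : z = (none, 0) := h
    subst hz
    refine ⟨⟨0, by omega⟩, info ℓ [a], if i = 0 then 1 else 0, ?_, ?_⟩
    · show (some ((⟨0, by omega⟩ : Fin (i + 2)), info ℓ [a]),
        if decide (i = 0) then 0 + 1 else 0) = _
      by_cases hi : i = 0 <;> simp [hi]
    · by_cases hi : i = 0
      · right; left
        refine ⟨hi.symm, hi.symm, rfl, by simp [hi]⟩
      · left
        refine ⟨?_, rfl, rfl, by simp [hi]⟩
        show 0 < i
        omega
  · obtain ⟨j, s, n, hz, h⟩ := h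
    subst hz
    show InvP ℓ i (pstep ℓ (x :: t) a)
      (pSt ℓ i (some (j, s)) a, if pMark ℓ i (some (j, s)) a then n + 1 else n)
    rcases h with ⟨h1, h2, h3, h4⟩ | ⟨h1, h2, h3, h4⟩ | ⟨h1, h2, x', h3, h4, h5⟩
    · subst h3
      have hj : ¬ j.val = i + 1 := by omega
      by_cases ha : Per ℓ (a :: x)
      · have hr : pstep ℓ (x :: t) a = (a :: x) :: t := by simp [pstep, ha]
        have hk : Ok (infoStep (info ℓ x) a) := by rw [← info_cons, ok_info]; exact ha
        have e1 : pSt ℓ i (some (j, info ℓ x)) a = some (j, info ℓ (a :: x)) := by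
          simp [pSt, hj, hk, info_cons]
        have e2 : pMark ℓ i (some (j, info ℓ x)) a = false := by
          have h6 : ¬ j.val = i := by omega
          simp [pMark, hk, h6]
        rw [hr, e1, e2]
        exact ⟨j, _, n, by simp, Or.inl ⟨h1, h2, rfl, h4⟩⟩
      · have hr : pstep ℓ (x :: t) a = [a] :: x :: t := by simp [pstep, ha]
        have hk : ¬ Ok (infoStep (info ℓ x) a) := by rw [← info_cons, ok_info]; exact ha
        have h7 : j.val < i := by omega
        have e1 : pSt ℓ i (some (j, info ℓ x)) a = some (⟨j.val + 1, by omega⟩, info ℓ [a]) := by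
          simp [pSt, hj, hk, h7]
        have e2 : pMark ℓ i (some (j, info ℓ x)) a = decide (j.val + 1 = i) := by
          simp [pMark, hk]
        rw [hr, e1, e2]
        by_cases h8 : t.length + 1 = i
        · refine ⟨⟨j.val + 1, by omega⟩, info ℓ [a], 1, ?_, Or.inr (Or.inl ⟨?_, ?_, rfl, rfl⟩)⟩
          · have h9 : j.val + 1 = i := by omega
            simp [h9, h4]
          · simpa using h8
          · show j.val + 1 = i
            omega
        · refine ⟨⟨j.val + 1, by omega⟩, info ℓ [a], 0, ?_, Or.inl ⟨?_, ?_, rfl, rfl⟩⟩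
          · have h9 : ¬ j.val + 1 = i := by omega
            simp [h9, h4]
          · simp only [List.length_cons]; omega
          · simp only [List.length_cons]; omega
    · subst h3
      have hj : ¬ j.val = i + 1 := by omega
      by_cases ha : Per ℓ (a :: x)
      · have hr : pstep ℓ (x :: t) a = (a :: x) :: t := by simp [pstep, ha]
        have hk : Ok (infoStep (info ℓ x) a) := by rw [← info_cons, ok_info]; exact ha
        have e1 : pSt ℓ i (some (j, info ℓ x)) a = some (j, info ℓ (a :: x)) := by
          simp [pSt, hj, hk, info_cons]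
        have e2 : pMark ℓ i (some (j, info ℓ x)) a = true := by
          simp [pMark, hk, h2]
        rw [hr, e1, e2]
        exact ⟨j, _, n + 1, by simp, Or.inr (Or.inl ⟨h1, h2, rfl, by rw [h4]; rfl⟩)⟩
      · have hr : pstep ℓ (x :: t) a = [a] :: x :: t := by simp [pstep, ha]
        have hk : ¬ Ok (infoStep (info ℓ x) a) := by rw [← info_cons, ok_info]; exact ha
        have h7 : ¬ j.val < i := by omega
        have e1 : pSt ℓ i (some (j, info ℓ x)) a = some (⟨i + 1, by omega⟩, info ℓ x) := by
          simp [pSt, hj, hk, h7]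
        have e2 : pMark ℓ i (some (j, info ℓ x)) a = false := by
          have h9 : ¬ j.val + 1 = i := by omega
          simp [pMark, hk, h9]
        rw [hr, e1, e2]
        refine ⟨⟨i + 1, by omega⟩, info ℓ x, n, by simp, Or.inr (Or.inr ⟨?_, rfl, x, ?_, rfl, h4⟩)⟩
        · simp only [List.length_cons]; omega
        · rw [List.reverse_cons, List.reverse_cons,
            List.getElem?_append_left (by simp; omega),
            List.getElem?_append_right (by simp; omega)]
          simp [h1]
    · have e1 : pSt ℓ i (some (j, s)) a = some (j, s) := by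
        simp [pSt, h2]
      have e2 : pMark ℓ i (some (j, s)) a = false := by
        have h8 : ¬ j.val = i := by omega
        have h9 : ¬ j.val + 1 = i := by omega
        by_cases hk : Ok (infoStep s a)
        · simp [pMark, hk, h8]
        · simp [pMark, hk, h9]
      rw [e1, e2]
      by_cases ha : Per ℓ (a :: x)
      · have hr : pstep ℓ (x :: t) a = (a :: x) :: t := by simp [pstep, ha]
        rw [hr]
        refine ⟨j, s, n, by simp, Or.inr (Or.inr ⟨h1, h2, x', ?_, h4, h5⟩)⟩
        rw [← h3, List.reverse_cons, List.reverse_cons,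
          List.getElem?_append_left (by simpa using h1),
          List.getElem?_append_left (by simpa using h1)]
      · have hr : pstep ℓ (x :: t) a = [a] :: x :: t := by simp [pstep, ha]
        rw [hr]
        refine ⟨j, s, n, by simp, Or.inr (Or.inr ⟨?_, h2, x', ?_, h4, h5⟩)⟩
        · simp only [List.length_cons]; omega
        · rw [← h3]
          conv_lhs => rw [List.reverse_cons]
          rw [List.getElem?_append_left (by simp; omega)]

theorem invP_foldl [Finite A] (strict : Prop) (M : LimAut A) (ℓ i : ℕ) (w : List A)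
    (l : List (List A)) (z : Option (Fin (i + 2) × Inf A ℓ) × ℕ) (h : InvP ℓ i l z) :
    InvP ℓ i (w.foldl (pstep ℓ) l) (w.foldl (pMA strict M ℓ i).stp z) := by
  induction w generalizing l z with
  | nil => exact h
  | cons a w ih => exact ih _ _ (invP_step strict M ℓ i l z a h)

theorem invP_out [Finite A] (strict : Prop) (M : LimAut A) (ℓ i : ℕ) (w : List A) :
    InvP ℓ i (gf ℓ w) ((pMA strict M ℓ i).out w) :=
  invP_foldl strict M ℓ i w [] (none, 0) rfl

theorem walk_runs (strict : Prop) (M : LimAut A) {ℓ : ℕ} (hℓ : 1 ≤ ℓ) (s : Inf A ℓ)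
    (x' : List A) (hx : ∀ t, t < x'.length → ∃ h : t % perOf s < ℓ,
      x'[t]? = s.1 ⟨t % perOf s, h⟩) (j : Fin ℓ) (x y : Tb M) :
    Walk (Ed strict M s) x'.length (x, j) (y, ⟨0, hℓ⟩) ↔
      (j.val = x'.length % perOf s ∧ runs strict M x'.reverse x y) := by
  induction x' using List.reverseRecOn generalizing j x with
  | nil =>
    simp only [List.length_nil, Walk, Nat.zero_mod, List.reverse_nil, runs]
    constructor
    · intro h
      have h1 := congrArg Prod.fst h
      have h2 := congrArg (fun z => z.2.val) h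
      exact ⟨h2, h1⟩
    · rintro ⟨h1, h2⟩
      exact Prod.ext h2 (Fin.ext h1)
  | append_singleton x'' c ih =>
    have hx2 : ∀ t, t < x''.length → ∃ h : t % perOf s < ℓ,
        x''[t]? = s.1 ⟨t % perOf s, h⟩ := by
      intro t ht
      obtain ⟨h1, h2⟩ := hx t (by rw [List.length_append]; omega)
      rw [List.getElem?_append_left ht] at h2
      exact ⟨h1, h2⟩
    obtain ⟨hc1, hc2⟩ := hx x''.length (by rw [List.length_append]; simp)
    rw [List.getElem?_append_right (le_refl _), Nat.sub_self] at hc2
    have hc3 : s.1 ⟨x''.length % perOf s, hc1⟩ = some c := hc2.symm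
    have e1 : (x'' ++ [c]).length = x''.length + 1 := by simp
    have e2 : (x'' ++ [c]).reverse = c :: x''.reverse := by simp
    rw [e1, e2]
    simp only [Walk, runs]
    constructor
    · rintro ⟨⟨z, j'⟩, ⟨h1, h2, a, h3, h4⟩, h5⟩
      obtain ⟨h6, h7⟩ := (ih hx2 j' z).1 h5
      have h8 : j' = ⟨x''.length % perOf s, hc1⟩ := Fin.ext h6
      rw [h8] at h2 h3
      have h9 : some a = some c := h3.symm.trans hc3
      have h10 : a = c := Option.some_injective _ h9
      refine ⟨?_, z, ?_, h7⟩
      · have h11 : (x''.length % perOf s + 1) % perOf s = j.val := h2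
        rw [← h11, Nat.mod_add_mod]
      · rw [← h10]
        exact h4
    · rintro ⟨h1, z, h2, h3⟩
      refine ⟨(z, ⟨x''.length % perOf s, hc1⟩), ⟨Nat.mod_lt _ (perOf_pos s), ?_, c, hc3, h2⟩,
        (ih hx2 _ z).2 ⟨rfl, h3⟩⟩
      show (x''.length % perOf s + 1) % perOf s = j.val
      rw [h1, Nat.mod_add_mod]

theorem walk_info (strict : Prop) (M : LimAut A) {ℓ : ℕ} (hℓ : 1 ≤ ℓ) (x' : List A)
    (hp : Per ℓ x') (x y : Tb M) :
    (∃ j : Fin ℓ, Walk (Ed strict M (info ℓ x')) x'.length (x, j) (y, ⟨0, hℓ⟩)) ↔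
      runs strict M x'.reverse x y := by
  have hx : ∀ t, t < x'.length → ∃ h : t % perOf (info ℓ x') < ℓ,
      x'[t]? = (info ℓ x').1 ⟨t % perOf (info ℓ x'), h⟩ := by
    intro t ht
    refine ⟨(Nat.mod_lt _ (perOf_pos _)).trans_le (perOf_le hℓ _), ?_⟩
    exact hasPer_mod x' _ (perOf_pos _) (hasPer_perOf ℓ x' hp) t ht
  constructor
  · rintro ⟨j, hj⟩
    exact ((walk_runs strict M hℓ _ x' hx j x y).1 hj).2
  · intro h
    exact ⟨⟨x'.length % perOf (info ℓ x'),
      (Nat.mod_lt _ (perOf_pos _)).trans_le (perOf_le hℓ _)⟩,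
      (walk_runs strict M hℓ _ x' hx _ x y).2 ⟨rfl, h⟩⟩

/-- The block `i` as a word. -/
noncomputable def blkP (ℓ : ℕ) (w : List A) (i : ℕ) : List A :=
  decP ((gf ℓ w).reverse[i]?.toList)

theorem walk_zero (strict : Prop) (M : LimAut A) {ℓ : ℕ} (hℓ : 1 ≤ ℓ)
    (E : Tb M × Fin ℓ → Tb M × Fin ℓ → Prop) (x y : Tb M) :
    (∃ j : Fin ℓ, Walk E 0 (x, j) (y, ⟨0, hℓ⟩)) ↔ runs strict M [] x y := by
  simp only [Walk, runs]
  constructor
  · rintro ⟨j, h⟩
    exact congrArg Prod.fst h
  · intro h
    exact ⟨⟨0, hℓ⟩, by rw [h]⟩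

theorem walk_blkP [Finite A] (strict : Prop) (M : LimAut A) {ℓ : ℕ} (hℓ : 1 ≤ ℓ) (w : List A)
    (i : ℕ) (x y : Tb M) :
    (∃ j : Fin ℓ, Walk ((pMA strict M ℓ i).E ((pMA strict M ℓ i).out w).1)
      ((pMA strict M ℓ i).out w).2 (x, j) (y, ⟨0, hℓ⟩)) ↔ runs strict M (blkP ℓ w i) x y := by
  have h := invP_out strict M ℓ i w
  have hper := per_gf ℓ hℓ w
  unfold blkP
  generalize gf ℓ w = l at h hper
  generalize (pMA strict M ℓ i).out w = z at h
  rcases l with _ | ⟨p, t⟩
  · have hz : z = (none, 0) := h
    subst hz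
    exact walk_zero strict M hℓ _ x y
  · obtain ⟨j, s, n, hz, h⟩ := h
    subst hz
    rcases h with ⟨h1, h2, h3, h4⟩ | ⟨h1, h2, h3, h4⟩ | ⟨h1, h2, x', h3, h4, h5⟩
    · have e : (p :: t).reverse[i]? = none := by
        rw [List.getElem?_eq_none]
        simp
        omega
      rw [e, h4]
      exact walk_zero strict M hℓ _ x y
    · have e : (p :: t).reverse[i]? = some p := by
        rw [List.reverse_cons, List.getElem?_append_right (by simp; omega)]
        simp [h1]
      rw [e, h3, h4]
      have e2 : decP (Option.toList (some p)) = p.reverse := by simp [decP]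
      rw [e2]
      exact walk_info strict M hℓ p (hper p List.mem_cons_self) x y
    · rw [h3, h4, h5]
      have e2 : decP (Option.toList (some x')) = x'.reverse := by simp [decP]
      rw [e2]
      have hm : x' ∈ (p :: t).reverse := List.mem_of_getElem? h3
      exact walk_info strict M hℓ x' (hper x' (List.mem_reverse.1 hm)) x y

theorem flatMap_blkP (ℓ : ℕ) (w : List A) (k : ℕ) :
    (List.range k).flatMap (blkP ℓ w) = decP ((gf ℓ w).reverse.take k) := by
  induction k with
  | zero => simp [decP]
  | succ k ih =>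
    rw [List.range_succ, List.flatMap_append, ih, List.take_add_one]
    simp [decP, blkP]

theorem reachG_runs (strict : Prop) (M : LimAut A) (f : ℕ → List A) (I : List ℕ) (x y : Tb M) :
    reachG (fun i x y => runs strict M (f i) x y) I x y ↔ runs strict M (I.flatMap f) x y := by
  induction I generalizing x with
  | nil => simp [reachG, runs]
  | cons i I ih => simp only [reachG, List.flatMap_cons, runs_append, ih]

theorem reach_blkP (strict : Prop) (M : LimAut A) (ℓ : ℕ) (w : List A) (k : ℕ)
    (hk : (gf ℓ w).length ≤ k) (x y : Tb M) :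
    reachG (fun i x y => runs strict M (blkP ℓ w i) x y) (List.range k) x y ↔
      runs strict M w x y := by
  rw [reachG_runs, flatMap_blkP, List.take_of_length_le (by simpa using hk), decP_gf]

/-- The test for at most `k` blocks. -/
def fmtP (ℓ k : ℕ) : Option (Fin (k + 2) × Inf A ℓ) → Bool
  | none => true
  | some (j, _) => decide (j.val < k)

theorem fmtP_iff [Finite A] (M : LimAut A) (ℓ k : ℕ) (w : List A) :
    fmtP ℓ k (w.foldl (pSt ℓ k) none) = true ↔ (gf ℓ w).length ≤ k := by
  have h := invP_out True M ℓ k w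
  have e : w.foldl (pSt ℓ k) none = ((pMA True M ℓ k).out w).1 :=
    (stp_fst (pMA True M ℓ k) w (none, 0)).symm
  rw [e]
  generalize gf ℓ w = l at h
  generalize (pMA True M ℓ k).out w = z at h
  rcases l with _ | ⟨p, t⟩
  · have hz : z = (none, 0) := h
    subst hz
    simp [fmtP]
  · obtain ⟨j, s, n, hz, h⟩ := h
    subst hz
    simp only [fmtP, decide_eq_true_eq, List.length_cons]
    omega

end Pool.Agent.R561.CM
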