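import Mathlib
import Pool.Agent.R561.CM.PBlocks
import Pool.Agent.R561.CM.Final

set_option autoImplicit false

/-!
# The machine for products of few words with small periods
-/

namespace Pool.Agent.R561.CM

open Relation Pool.Agent.TH588.WD.Cmd
open Pool.Agent.H630R2.LA
open Pool.Agent.TH588.WD (Cmd)
open Pool.Agent.H542.UN

variable {A : Type}

/-- The program for the block `i`. -/
noncomputable def leafP [Finite A] (strict : Prop) (M : LimAut A) {ℓ : ℕ} (hℓ : 1 ≤ ℓ) (i : ℕ)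
    (x y : Tb M) : Cmd (Sym (Option A)) Bool :=
  orL (List.finRange ℓ) (fun j => (pMA strict M ℓ i).T (x, j) (y, ⟨0, hℓ⟩))

theorem decides_leafP [Finite A] (strict : Prop) (M : LimAut A) {ℓ : ℕ} (hℓ : 1 ≤ ℓ)
    (w : List A) (i : ℕ) (x y : Tb M) :
    Decides (tape w) (w.length + 1) (leafP strict M hℓ i x y) 1 1
      (runs strict M (blkP ℓ w i) x y) := by
  have hQ := M.finQ
  refine (decides_orL _ _ _ (fun j => (pMA strict M ℓ i).decides_T (x, j) (y, ⟨0, hℓ⟩) w)).congr ?_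
  rw [← walk_blkP strict M hℓ w i x y]
  constructor
  · rintro ⟨j, _, h⟩
    exact ⟨j, h⟩
  · rintro ⟨j, h⟩
    exact ⟨j, List.mem_finRange j, h⟩

theorem card_pS [Finite A] (ℓ i : ℕ) :
    Nat.card (Option (Fin (i + 2) × Inf A ℓ)) =
      (i + 2) * ((Nat.card A + 1) ^ ℓ * 2 ^ ℓ) + 1 := by
  rw [Finite.card_option, Nat.card_prod, Nat.card_prod, Nat.card_fun, Nat.card_fun,
    Finite.card_option, Nat.card_eq_fintype_card (α := Fin _), Nat.card_eq_fintype_card (α := Fin _),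
    Nat.card_eq_fintype_card (α := Bool), Fintype.card_fin, Fintype.card_fin, Fintype.card_bool]

theorem pow_aux2 (r : ℕ) (hr : 1 ≤ r) (s : ℕ) :
    r * (s * ((2 * r ^ 2 + 1) * r) + 2) ≤ (3 * s + 2) * r ^ 4 := by
  have e1 : (2 * r ^ 2 + 1) * r ≤ 3 * r ^ 3 := by
    have : r ≤ r ^ 3 := by
      calc r = r ^ 1 := (pow_one r).symm
        _ ≤ r ^ 3 := Nat.pow_le_pow_right hr (by norm_num)
    calc (2 * r ^ 2 + 1) * r = 2 * r ^ 3 + r := by ring
      _ ≤ 3 * r ^ 3 := by omega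
  have e2 : 2 ≤ 2 * r ^ 3 := by
    have : 1 ≤ r ^ 3 := Nat.one_le_pow _ _ hr
    omega
  calc r * (s * ((2 * r ^ 2 + 1) * r) + 2) ≤ r * (s * (3 * r ^ 3) + 2 * r ^ 3) :=
        Nat.mul_le_mul_left _ (Nat.add_le_add (Nat.mul_le_mul_left _ e1) e2)
    _ = (3 * s + 2) * r ^ 4 := by ring

theorem cnt_leafP [Finite A] (strict : Prop) (M : LimAut A) {ℓ : ℕ} (hℓ : 1 ≤ ℓ) (k i : ℕ)
    (hi : i < k) (x y : Tb M) :
    (leafP strict M hℓ i x y).cnt ≤
      (3 * ((k + 1) * ((Nat.card A + 1) ^ ℓ * 2 ^ ℓ) + 1) + 2) * Nat.card (Tb M) ^ 4 * ℓ ^ 5 := by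
  have hQ := M.finQ
  set s := (k + 1) * ((Nat.card A + 1) ^ ℓ * 2 ^ ℓ) + 1 with hs
  have hX : Nat.card (Tb M × Fin ℓ) = Nat.card (Tb M) * ℓ := by
    rw [Nat.card_prod, Nat.card_eq_fintype_card (α := Fin _), Fintype.card_fin]
  have hr : 1 ≤ Nat.card (Tb M × Fin ℓ) := by
    have : Nonempty (Tb M × Fin ℓ) := ⟨(x, ⟨0, hℓ⟩)⟩
    exact Nat.card_pos
  have h1 := cnt_orL (List.finRange ℓ) (fun j => (pMA strict M ℓ i).T (x, j) (y, ⟨0, hℓ⟩))
    ((3 * s + 2) * Nat.card (Tb M × Fin ℓ) ^ 4) (by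
      intro j
      refine ((pMA strict M ℓ i).cnt_T (x, j) (y, ⟨0, hℓ⟩) s ?_).trans (pow_aux2 _ hr s)
      show Nat.card (Option (Fin (i + 2) × Inf A ℓ)) ≤ s
      rw [card_pS, hs]
      refine Nat.add_le_add_right (Nat.mul_le_mul_right _ ?_) 1
      omega)
  rw [List.length_finRange, hX] at h1
  refine h1.trans (le_of_eq ?_)
  ring

theorem lin_le_two_pow (a : ℕ) : a + 3 ≤ 3 * 2 ^ a := by
  have h := sq_le_two_pow a
  nlinarith

/-- **Products of few words with small periods.** -/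
theorem few_periods (strict : Prop) (M : LimAut A) (k ℓ : ℕ) (hℓ : 1 ≤ ℓ) :
    ∃ M' : LimAut A, M'.Deterministic ∧ NeverRewrites M' ∧
      (∀ (strict' : Prop) (w : List A), w ∈ M'.language strict' ↔ w ∈ M.language strict ∧
        ∃ u : List (List A), u.length ≤ k ∧ (∀ v ∈ u, ∃ p, 1 ≤ p ∧ p ≤ ℓ ∧ HasPer v p) ∧
          w = u.flatten) ∧
      M'.size ≤ (64 * (Nat.card A + 1)) ^ ℓ *
        2 ^ ((Nat.clog 2 k + 5) * (Nat.card M.Q ^ 2 + Nat.card M.Q) +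
          2 * Nat.clog 2 k + Nat.card A + 9) := by
  classical
  have hA := finite_alphabet M
  have hQ := M.finQ
  have hfX : Fintype (Tb M) := Fintype.ofFinite _
  let L : List (Tb M) := Finset.univ.toList
  have hL : ∀ x, x ∈ L := fun x => Finset.mem_toList.2 (Finset.mem_univ x)
  have hLl : L.length = Nat.card (Tb M) := by
    rw [Finset.length_toList, Finset.card_univ, Nat.card_eq_fintype_card]
  have hd : k ≤ 2 ^ Nat.clog 2 k := Nat.le_pow_clog (by norm_num) _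
  let c1 : Cmd (Sym (Option A)) Bool := dfaL none (pSt ℓ k) (fmtP ℓ k)
  let c2 := topG (leafP strict M hℓ) L (finX strict M) (Nat.clog 2 k) (List.range k)
    (x0 strict M)
  let c := ite c1 c2 (ret false)
  refine ⟨prog c, prog_det c, prog_nr c, ?_, ?_⟩
  · intro strict' w
    rw [mem_prog c strict' w _ (decides_ite (decides_dfaL _ _ _ w)
      (fun _ => decides_topG (leafP strict M hℓ) L hL (finX strict M) w
        (fun i x y => runs strict M (blkP ℓ w i) x y) (decides_leafP strict M hℓ w) _ _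
        (by rw [List.length_range]; exact hd) _)
      (fun _ => decides_ret _ _ _ _)),
      mem_language_runs, fmtP_iff M, gf_iff ℓ hℓ]
    constructor
    · rintro (⟨h1, y, h2, h3⟩ | ⟨_, h⟩)
      · rw [reach_blkP strict M ℓ w k h1] at h2
        exact ⟨⟨y, h2, h3⟩, h1⟩
      · exact absurd h (by simp)
    · rintro ⟨⟨y, h2, h3⟩, h1⟩
      refine Or.inl ⟨h1, y, ?_, h3⟩
      rw [reach_blkP strict M ℓ w k h1]
      exact h2
  · have h1 := size_prog c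
    have h4 : c2.cnt ≤ _ := cnt_topG (leafP strict M hℓ) L (finX strict M) _
      (Nat.clog 2 k) (List.range k)
      (fun i hi x y => cnt_leafP strict M hℓ k i (List.mem_range.1 hi) x y) (x0 strict M)
    rw [hLl] at h4
    have hr : 1 ≤ Nat.card (Tb M) := by
      have : Nonempty (Tb M) := ⟨x0 strict M⟩
      exact Nat.card_pos
    have hc : c.cnt = (k + 2) * ((Nat.card A + 1) ^ ℓ * 2 ^ ℓ) + 1 + 2 + (c2.cnt + 0) := by
      show c1.cnt + (c2.cnt + 0) = _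
      rw [cnt_dfaL, card_pS]
    generalize Nat.clog 2 k = κ at *
    have h5 : Nat.card (Tb M) ^ (κ + 5) ≤
        2 ^ ((κ + 5) * (Nat.card M.Q ^ 2 + Nat.card M.Q)) := by
      calc Nat.card (Tb M) ^ (κ + 5)
          ≤ (2 ^ (Nat.card M.Q ^ 2 + Nat.card M.Q)) ^ (κ + 5) :=
            Nat.pow_le_pow_left (card_tb_le M) _
        _ = _ := by rw [← pow_mul, mul_comm]
    have h6 : 1 ≤ Nat.card (Tb M) ^ (κ + 5) := Nat.one_le_pow _ _ hr
    have h7 := lin_le_two_pow (Nat.card A)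
    have h8 : 1 ≤ 2 ^ κ := Nat.one_le_two_pow
    have h9 : 1 ≤ (Nat.card A + 1) ^ ℓ * 2 ^ ℓ :=
      Nat.mul_pos (Nat.pow_pos (by omega)) (Nat.pow_pos (by omega))
    have h10 : 1 ≤ ℓ ^ 5 := Nat.one_le_pow _ _ hℓ
    have h11 : (Nat.card A + 1) ^ ℓ * 2 ^ ℓ * ℓ ^ 5 ≤ (64 * (Nat.card A + 1)) ^ ℓ := by
      have e1 : ℓ ^ 5 ≤ (2 ^ ℓ) ^ 5 := Nat.pow_le_pow_left Nat.lt_two_pow_self.le 5
      calc (Nat.card A + 1) ^ ℓ * 2 ^ ℓ * ℓ ^ 5
          ≤ (Nat.card A + 1) ^ ℓ * 2 ^ ℓ * (2 ^ ℓ) ^ 5 := Nat.mul_le_mul_left _ e1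
        _ = (Nat.card A + 1) ^ ℓ * (2 ^ ℓ) ^ 6 := by ring
        _ = (Nat.card A + 1) ^ ℓ * 64 ^ ℓ := by
            rw [← pow_mul, mul_comm ℓ 6, pow_mul]
            norm_num
        _ = (64 * (Nat.card A + 1)) ^ ℓ := by rw [← mul_pow, mul_comm]
    have h4' : c2.cnt ≤ (3 * ((k + 1) * ((Nat.card A + 1) ^ ℓ * 2 ^ ℓ) + 1) + 2) * 2 ^ κ *
        (Nat.card (Tb M) ^ (κ + 5) * ℓ ^ 5) := by
      refine h4.trans (le_of_eq ?_)
      ring
    generalize Nat.card (Tb M) ^ (κ + 5) = R at *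
    generalize hE : 2 ^ ((κ + 5) * (Nat.card M.Q ^ 2 + Nat.card M.Q)) = E at *
    have e1 : 2 ^ ((κ + 5) * (Nat.card M.Q ^ 2 + Nat.card M.Q) + 2 * κ + Nat.card A + 9) =
        E * (2 ^ κ) ^ 2 * 2 ^ Nat.card A * 2 ^ 9 := by
      rw [pow_add, pow_add, pow_add, hE, mul_comm 2 κ, pow_mul]
    rw [e1]
    generalize (64 * (Nat.card A + 1)) ^ ℓ = W at *
    generalize (Nat.card A + 1) ^ ℓ * 2 ^ ℓ = Λ at *
    generalize Nat.card A = α at *
    generalize ℓ ^ 5 = V at *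
    generalize 2 ^ α = T at *
    generalize 2 ^ κ = P at *
    have h12 : c.cnt + 3 ≤ 20 * P ^ 2 * Λ * (R * V) := by
      have b0 : P ≤ P ^ 2 := by nlinarith
      have b3 : 1 ≤ P ^ 2 := Nat.one_le_pow _ _ h8
      have b4 : 1 ≤ P ^ 2 * Λ := Nat.mul_pos b3 h9
      have b5 : 1 ≤ R * V := Nat.mul_pos h6 h10
      have a2 : (k + 2) * Λ + 6 ≤ 9 * (P ^ 2 * Λ) := by
        have b1 : (k + 2) * Λ ≤ (3 * P ^ 2) * Λ := Nat.mul_le_mul_right _ (by omega)
        have b2 : (3 * P ^ 2) * Λ = 3 * (P ^ 2 * Λ) := by ring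
        omega
      have a3 : (3 * ((k + 1) * Λ + 1) + 2) * P ≤ 11 * (P ^ 2 * Λ) := by
        have b1 : (k + 1) * Λ ≤ (2 * P) * Λ := Nat.mul_le_mul_right _ (by omega)
        have b2 : P ≤ P ^ 2 * Λ := b0.trans (Nat.le_mul_of_pos_right _ h9)
        calc (3 * ((k + 1) * Λ + 1) + 2) * P ≤ (3 * ((2 * P) * Λ + 1) + 2) * P := by
              refine Nat.mul_le_mul_right _ ?_
              omega
          _ = 6 * (P ^ 2 * Λ) + 5 * P := by ring
          _ ≤ 11 * (P ^ 2 * Λ) := by omega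
      calc c.cnt + 3 = ((k + 2) * Λ + 6) * 1 + c2.cnt := by rw [hc]; ring
        _ ≤ (9 * (P ^ 2 * Λ)) * (R * V) + (3 * ((k + 1) * Λ + 1) + 2) * P * (R * V) :=
            Nat.add_le_add (Nat.mul_le_mul a2 b5) h4'
        _ ≤ (9 * (P ^ 2 * Λ)) * (R * V) + (11 * (P ^ 2 * Λ)) * (R * V) :=
            Nat.add_le_add_left (Nat.mul_le_mul_right _ a3) _
        _ = 20 * P ^ 2 * Λ * (R * V) := by ring
    calc (prog c).size ≤ 8 * (c.cnt + 3) * (α + 3) := h1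
      _ ≤ 8 * (20 * P ^ 2 * Λ * (R * V)) * (3 * T) :=
          Nat.mul_le_mul (Nat.mul_le_mul_left _ h12) h7
      _ = 480 * (P ^ 2 * T) * ((Λ * V) * R) := by ring
      _ ≤ 480 * (P ^ 2 * T) * (W * E) := Nat.mul_le_mul_left _ (Nat.mul_le_mul h11 h5)
      _ = W * (E * P ^ 2 * T * 480) := by ring
      _ ≤ W * (E * P ^ 2 * T * 2 ^ 9) :=
          Nat.mul_le_mul_left _ (Nat.mul_le_mul_left _ (by norm_num))

end Pool.Agent.R561.CM
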