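import Mathlib
import Pool.Agent.H542.UN.Up

set_option autoImplicit false

/-!
# Shared facts on sizes, and the lower bound for unary languages
-/

namespace Pool.Agent.R561.CM

open Pool.Agent.H630R2.LA
open Pool.Agent.H542.UN (witU size_witU lowerS upperU)

theorem size_ge {A : Type} (M : LimAut A) : Nat.card M.Q + 2 * Nat.card A + 3 ≤ M.size := by
  have hW := M.finW
  have h1 : Nat.card A ≤ Nat.card M.W := Nat.card_le_card_of_injective M.inp M.inp_inj
  unfold LimAut.size
  omega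

/-- The machine without moves. -/
def trivialM : LimAut Empty where
  Q := Unit
  W := Empty
  finQ := inferInstance
  finW := inferInstance
  inp := id
  inp_inj := fun _ _ h => h
  δ := fun _ _ => ∅
  q0 := ()
  F := ∅

theorem size_trivialM : trivialM.size = 4 := by
  have h : trivialM.numTrans = 0 := by
    unfold LimAut.numTrans
    have : {t : trivialM.Q × Sym trivialM.W × trivialM.Q × trivialM.W × Bool |
        t.2.2 ∈ trivialM.δ t.1 t.2.1} = ∅ := by
      ext t
      exact ⟨fun h => h, fun h => h⟩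
    rw [this, Set.ncard_empty]
  unfold LimAut.size
  rw [h]
  have h1 : Nat.card trivialM.Q = 1 := Nat.card_unique (α := Unit)
  have h2 : Nat.card trivialM.W = 0 := Nat.card_of_isEmpty (α := Empty)
  have h3 : trivialM.F.ncard = 0 := Set.ncard_empty _
  have h4 : Nat.card Empty = 0 := Nat.card_of_isEmpty
  omega

theorem unit_eq (u : List Unit) : u = List.replicate u.length () :=
  List.eq_replicate_iff.2 ⟨rfl, fun _ _ => rfl⟩

theorem le_detSize (strict : Prop) (m : ℕ) (hm : 2 ≤ m) :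
    2 ^ (m * m - 1) ≤ detSize strict ((witU m).language strict) ^ 2 := by
  obtain ⟨M', h1, _, h2, -⟩ := upperU (witU m) strict
  have hne : {s | ∃ M : LimAut Unit, M.Deterministic ∧
      M.language strict = (witU m).language strict ∧ M.size = s}.Nonempty := ⟨_, M', h1, h2, rfl⟩
  obtain ⟨M, h3, h4, h5⟩ := Nat.sInf_mem hne
  have h6 : M.size = detSize strict ((witU m).language strict) := h5
  rw [← h6]
  exact lowerS hm strict M h3 h4

theorem lower_of (strict : Prop) (n : ℕ) (hn : 12000000 ≤ n) (D : ℕ)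
    (h : ∀ m, 4000000 * (m + 1) ≤ n → detSize strict ((witU m).language strict) ≤ D) :
    2 ^ (n ^ 2) ≤ D ^ (2 * 10 ^ 14) := by
  obtain ⟨m, hm, h1, h2⟩ : ∃ m, 2 ≤ m ∧ 4000000 * (m + 1) ≤ n ∧ n ≤ 4000000 * (m + 2) :=
    ⟨n / 4000000 - 1, by omega, by omega, by omega⟩
  have h3 := h m h1
  have h4 := le_detSize strict m hm
  have h5 : n ^ 2 ≤ (m * m - 1) * 10 ^ 14 := by
    have e : m * m = (m * m - 1) + 1 := by
      have : 1 ≤ m * m := Nat.mul_pos (by omega) (by omega)
      omega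
    have e2 : n ^ 2 ≤ (4000000 * (m + 2)) ^ 2 := Nat.pow_le_pow_left h2 2
    have e3 : 4 ≤ m * m := Nat.mul_le_mul hm hm
    zify [show 1 ≤ m * m by omega]
    have e2' : (n : ℤ) ^ 2 ≤ (4000000 * ((m : ℤ) + 2)) ^ 2 := by exact_mod_cast e2
    have hm' : (2 : ℤ) ≤ m := by exact_mod_cast hm
    nlinarith
  calc 2 ^ (n ^ 2) ≤ 2 ^ ((m * m - 1) * 10 ^ 14) := Nat.pow_le_pow_right (by omega) h5
    _ = (2 ^ (m * m - 1)) ^ (10 ^ 14) := by rw [pow_mul]
    _ ≤ (detSize strict ((witU m).language strict) ^ 2) ^ (10 ^ 14) := Nat.pow_le_pow_left h4 _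
    _ ≤ (D ^ 2) ^ (10 ^ 14) := Nat.pow_le_pow_left (Nat.pow_le_pow_left h3 2) _
    _ = D ^ (2 * 10 ^ 14) := by rw [← pow_mul]

end Pool.Agent.R561.CM
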